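import Mathlib
import Pool.Agent.H592R3.Defs

/-!
The number of satisfying assignments of a formula.
-/

namespace Pool.Agent.W964.Pram

open SmallDepth

/-- The number of satisfying assignments of the formula `x`. -/
noncomputable def numModels {n M : ℕ} (x : Fin M × Fin n × Bool → Bool) : ℕ :=
  Nat.card {α : Fin n → Bool // Models x α}

/-- Every variable occurs in the formula `x`. -/
def AllOccur {n M : ℕ} (x : Fin M × Fin n × Bool → Bool) : Prop :=
  ∀ v : Fin n, ∃ (c : Fin M) (b : Bool), x (c, v, b) = true

end Pool.Agent.W964.Pram
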