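import Mathlib
import Pool.Agent.W964.Pram.Hard
import Pool.Agent.H592R3.Ov

/-!
Orthogonal vectors are hard on average for parallel machines.
-/

set_option linter.unusedSectionVars false

namespace Pool.Agent.W964.Pram

open Finset H568R2 H592R3 SmallDepth

open Classical in
theorem ov_pram (ε : ℝ) (hε : 0 < ε) (hε1 : ε < 1) (Kc : ℕ) : ∃ C : ℝ, 0 < C ∧
    ∀ N D T w : ℕ, 4 ≤ N → 1 ≤ T →
    C * (T * Real.log (Real.logb 2 N)) ≤ w → (w : ℝ) ≤ Real.logb 2 N → 4 ^ w ≤ D →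
    ∃ ν₀ ν₁ : (OvBits N D → Bool) → ℝ,
      ((∀ x, 0 ≤ ν₀ x) ∧ ∑ x, ν₀ x = 1) ∧ ((∀ x, 0 ≤ ν₁ x) ∧ ∑ x, ν₁ x = 1) ∧
      (∀ x, ν₀ x ≠ 0 → OvDistinct x) ∧ (∀ x, ν₁ x ≠ 0 → OvDistinct x ∧ OvYes x) ∧
      (∑ x, ν₀ x * (if OvYes x then 1 else 0)) ≤ (N : ℝ) ^ (-(1 - ε)) ∧
      ∀ (P : ℕ) (M : Machine (OvBits N D) P), (P : ℝ) ≤ (N : ℝ) ^ (2 - ε) →
        (∀ q, (M.query q).length ≤ N ^ Kc) →
        |(∑ x, ν₀ x * (if M.answer T x = true then 1 else 0)) -
          ∑ x, ν₁ x * (if M.answer T x = true then 1 else 0)| ≤ (2 : ℝ) ^ (-((w : ℝ) / C)) := by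
  obtain ⟨Q, hQ6, ⟨q, hQq⟩, C', hC', hpar⟩ := pram_hard (ε / 4) (by positivity) (by linarith) Kc
  obtain ⟨C, hC⟩ : ∃ C : ℝ, C = 2 * C' + 200 + 8 / ε + 16 * (2 * Q ^ 2 + 14 + 1) := ⟨_, rfl⟩
  have h4ε : 0 < 8 / ε := by positivity
  have hQ0 : (0 : ℝ) ≤ 16 * (2 * Q ^ 2 + 14 + 1) := by positivity
  have hC0 : 0 < C := by rw [hC]; positivity
  refine ⟨C, hC0, ?_⟩
  intro N D T w hN hT h1 hwL hD
  obtain ⟨L, hL⟩ : ∃ L : ℝ, L = Real.logb 2 N := ⟨_, rfl⟩
  rw [← hL] at h1 hwL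
  have hNR : (4 : ℝ) ≤ N := by exact_mod_cast hN
  have hN0 : (0 : ℝ) < N := by linarith
  have hL2 : 2 ≤ L := by
    rw [hL, Real.le_logb_iff_rpow_le (by norm_num) hN0]
    norm_num
    exact hN
  have hlog2' : (1 : ℝ) / 2 ≤ Real.log 2 := by
    have := Real.log_two_gt_d9
    linarith
  have hlogL2 : Real.log 2 ≤ Real.log L := Real.log_le_log (by norm_num) hL2
  have hlogL : 0 ≤ Real.log L := by linarith
  have hTR : (1 : ℝ) ≤ T := by exact_mod_cast hT
  have hdl : Real.log L ≤ T * Real.log L := le_mul_of_one_le_left hlogL hTR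
  have hCpos : 200 ≤ C := by rw [hC]; linarith
  have hwC : C * Real.log L ≤ w := (mul_le_mul_of_nonneg_left hdl hC0.le).trans h1
  have hLC2 : C / 2 ≤ L := by
    have : C * (1 / 2) ≤ C * Real.log L := mul_le_mul_of_nonneg_left (by linarith) hC0.le
    linarith
  have hL100 : 100 ≤ L := by linarith
  -- the number of variables
  obtain ⟨K, hK⟩ : ∃ K, K = Nat.log 2 N := ⟨_, rfl⟩
  have hK1 : 2 ^ K ≤ N := by rw [hK]; exact Nat.pow_log_le_self 2 (by omega)
  have hK2 : N < 2 ^ (K + 1) := by rw [hK]; exact Nat.lt_pow_succ_log_self (by norm_num) N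
  have hKL : (K : ℝ) ≤ L := by
    rw [hL, Real.le_logb_iff_rpow_le (by norm_num) hN0, Real.rpow_natCast]
    exact_mod_cast hK1
  have hLK : L < K + 1 := by
    rw [hL, Real.logb_lt_iff_lt_rpow (by norm_num) hN0]
    have : (N : ℝ) < 2 ^ (K + 1) := by exact_mod_cast hK2
    rwa [← Real.rpow_natCast, Nat.cast_add, Nat.cast_one] at this
  obtain ⟨n, hn⟩ : ∃ n, n = 2 * K := ⟨_, rfl⟩
  have hnR : (n : ℝ) = 2 * K := by rw [hn]; push_cast; ring
  have hn1R : (1 : ℝ) ≤ n := by rw [hnR]; linarith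
  have hn2L : (n : ℝ) ≤ 2 * L := by rw [hnR]; linarith
  have hn2' : 2 ≤ n := by
    have : (2 : ℝ) ≤ n := by rw [hnR]; linarith
    exact_mod_cast this
  have hwK : w ≤ K := by
    have : (w : ℝ) < K + 1 := lt_of_le_of_lt hwL hLK
    have h3 : w < K + 1 := by exact_mod_cast this
    omega
  have hwn : w ≤ n := by omega
  have hlogn : Real.log n ≤ 2 * Real.log L := by
    have : Real.log n ≤ Real.log (L * L) := by
      apply Real.log_le_log (by linarith)
      have : 100 * L ≤ L * L := mul_le_mul_of_nonneg_right hL100 (by linarith)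
      linarith
    rw [Real.log_mul (by linarith) (by linarith)] at this
    linarith
  have hwpar : C' * (T * Real.log n) ≤ w := by
    refine le_trans ?_ h1
    calc C' * (T * Real.log n) ≤ C' * (T * (2 * Real.log L)) := by gcongr
      _ = 2 * C' * (T * Real.log L) := by ring
      _ ≤ C * (T * Real.log L) := by
          apply mul_le_mul_of_nonneg_right _ (by positivity)
          rw [hC]; linarith
  obtain ⟨b, m', hb, hm', hB2, hBw, hQn, hexp, hwb, s, hs, hM⟩ := hpar n T w hn2' hT hwpar hwn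
  have hdt : 1 ≤ 3 * T * b := Nat.one_le_iff_ne_zero.2 (by positivity)
  have hℓ2 : 2 ≤ 2 * (3 * T) * b := by
    have : 2 * (3 * T) * b = 2 * (3 * T * b) := by ring
    omega
  have hcard1 : Q * m' * (2 * (3 * T) * b) ≤ n := by
    refine le_trans ?_ hQn
    exact Nat.mul_le_mul_left _ (by omega)
  obtain ⟨θ⟩ : Nonempty (Fin (Q * m') ≃ Fin (q * m') ⊕ Fin (q * m')) := by
    refine ⟨Fintype.equivOfCardEq ?_⟩
    rw [Fintype.card_sum, Fintype.card_fin, Fintype.card_fin, hQq]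
    ring
  obtain ⟨g⟩ : Nonempty ((Fin (q * m') → Fin (dom T b)) ↪ Fin N) := by
    apply Function.Embedding.nonempty_of_card_le
    rw [Fintype.card_fun, Fintype.card_fin, Fintype.card_fin, Fintype.card_fin]
    refine le_trans ?_ hK1
    unfold dom
    rw [← pow_mul]
    apply Nat.pow_le_pow_right (by norm_num)
    have : 2 * (2 * (3 * T) * b * (q * m')) = Q * m' * (2 * (3 * T) * b) := by rw [hQq]; ring
    omega
  -- the coordinates
  have hcard2 : Fintype.card (Coord (Q * m') (dom T b) (ar Q) (K + 1)) ≤ D := by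
    have c1 : Fintype.card (Coord (Q * m') (dom T b) (ar Q) (K + 1)) =
        Q * m' * (dom T b) ^ (ar Q) + (K + 1 + (K + 1) + 2) := by
      simp [Coord, Fintype.card_sum, Fintype.card_prod, Fintype.card_fun, Fintype.card_fin,
        Fintype.card_bool]
    have c2 : (dom T b) ^ (ar Q) ≤ 2 ^ w := by
      unfold dom
      rw [← pow_mul]
      apply Nat.pow_le_pow_right (by norm_num)
      rw [mul_comm]; omega
    have c3 : Q * m' ≤ n := by
      refine le_trans ?_ hcard1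
      exact Nat.le_mul_of_pos_right _ (by omega)
    have c4 : Q * m' * (dom T b) ^ (ar Q) ≤ n * 2 ^ w := Nat.mul_le_mul c3 c2
    have c5 : 1 ≤ 2 ^ w := Nat.one_le_two_pow
    have c6 : 4 ≤ n := by
      have : (4 : ℝ) ≤ n := by rw [hnR]; linarith
      exact_mod_cast this
    have c7 : n * 1 ≤ n * 2 ^ w := Nat.mul_le_mul_left _ c5
    have c8 : Fintype.card (Coord (Q * m') (dom T b) (ar Q) (K + 1)) ≤
        3 * (n * 2 ^ w) := by
      rw [c1]; omega
    have c9 : 3 * n ≤ 2 ^ w := by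
      have g1 : ((3 * n : ℕ) : ℝ) ≤ ((2 ^ w : ℕ) : ℝ) := by
        push_cast
        rw [← Real.rpow_natCast]
        have g2 : (3 : ℝ) * n ≤ L ^ (2 : ℝ) := by
          rw [show (2 : ℝ) = ((2 : ℕ) : ℝ) by norm_num, Real.rpow_natCast, pow_two]
          have g20 := mul_le_mul_of_nonneg_right hL100 (by linarith only [hL2] : 0 ≤ L)
          linarith only [g20, hn2L, hL2]
        refine g2.trans ?_
        rw [Real.rpow_def_of_pos (by linarith), Real.rpow_def_of_pos (by norm_num)]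
        apply Real.exp_le_exp.2
        have g3 : Real.log L * 2 ≤ 1 / 2 * (C * Real.log L) := by
          have := mul_le_mul_of_nonneg_right hCpos hlogL
          linarith only [this, hlogL]
        have g4 : 1 / 2 * (C * Real.log L) ≤ Real.log 2 * w := by
          have : 1 / 2 * (w : ℝ) ≤ Real.log 2 * w :=
            mul_le_mul_of_nonneg_right hlog2' (Nat.cast_nonneg w)
          linarith only [this, hwC]
        linarith only [g3, g4]
      exact_mod_cast g1
    calc Fintype.card (Coord (Q * m') (dom T b) (ar Q) (K + 1))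
        ≤ 3 * (n * 2 ^ w) := c8
      _ = 3 * n * 2 ^ w := by ring
      _ ≤ 2 ^ w * 2 ^ w := Nat.mul_le_mul_right _ c9
      _ = 4 ^ w := by
          rw [← mul_pow]
          norm_num
      _ ≤ D := hD
  obtain ⟨π, hπ⟩ : ∃ π : Fin D → Coord (Q * m') (dom T b) (ar Q) (K + 1),
      Function.Surjective π := by
    have : Nonempty (Coord (Q * m') (dom T b) (ar Q) (K + 1)) :=
      ⟨Sum.inr (Sum.inr true)⟩
    obtain ⟨g'⟩ : Nonempty (Coord (Q * m') (dom T b) (ar Q) (K + 1) ↪ Fin D) := by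
      apply Function.Embedding.nonempty_of_card_le
      rw [Fintype.card_fin]
      exact hcard2
    exact ⟨Function.invFun g', Function.invFun_surjective g'.injective⟩
  obtain ⟨σ, hσdef⟩ : ∃ σ : (Vr Q T b m' → Bool) → (OvBits N D → Bool), σ = ovOf s θ g π :=
    ⟨_, rfl⟩
  have hσ : ∀ j, Junta 1 (fun X => σ X j) := by
    intro j; rw [hσdef]; exact ovOf_junta s θ g π j
  have hσs : ∀ X, OvYes (σ X) ↔ Sat s X := by
    intro X; rw [hσdef]; exact ovOf_sat hπ X
  have hσd : ∀ X, OvDistinct (σ X) := by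
    intro X; rw [hσdef]; exact ovOf_distinct hπ hK2.le X
  obtain ⟨p, hp⟩ : ∃ p : ℝ, p = dens T b := ⟨_, rfl⟩
  have hp0 : 0 ≤ p := by rw [hp]; unfold dens; positivity
  have hp1 : p ≤ 1 := by
    have h1 : (1 : ℝ) ≤ ((2 : ℝ) ^ (3 * T * b)) ^ 3 := one_le_pow₀ (one_le_pow₀ (by norm_num))
    have h2 : 1 / ((2 : ℝ) ^ (3 * T * b)) ^ 3 ≤ 1 := by
      rw [div_le_one (by positivity)]; exact h1
    rw [hp]
    unfold dens
    linarith
  rw [← hp] at hM
  have hμ : ∀ X : Vr Q T b m' → Bool,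
      0 ≤ ∏ i, vp p (X i) := fun X => Finset.prod_nonneg fun i _ => vp_nonneg hp0 hp1 _
  have hμ1 : ∑ X : Vr Q T b m' → Bool, ∏ i, vp p (X i) = 1 := by
    have := Ex_const (I := Vr Q T b m') (vp_sum p) (1 : ℝ)
    unfold Ex at this
    simpa using this
  have hNp : (0 : ℝ) < (((dom T b : ℕ) : ℝ)) ^ (Q * m') := by unfold dom; positivity
  have hN2 : (N : ℝ) = 2 ^ L := by
    rw [hL, Real.rpow_logb (by norm_num) (by norm_num) hN0]
  have hLε : 4 ≤ ε * L := by
    have h8 : 8 / ε ≤ 2 * L := by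
      have : 8 / ε ≤ C := by rw [hC]; linarith
      linarith
    rw [div_le_iff₀ hε] at h8
    linarith
  refine ⟨push (fun X => ∏ i, vp p (X i)) σ,
    push (fun Xa : (Vr Q T b m' → Bool) × (Fin (Q * m') → Fin (dom T b)) =>
      (∏ i, vp p (Xa.1 i)) * (1 / (((dom T b : ℕ) : ℝ)) ^ (Q * m')))
      (fun Xa => σ (plant (vr s Xa.2) univ Xa.1)),
    ⟨push_nonneg _ _ hμ, by rw [push_total, hμ1]⟩,
    ⟨push_nonneg _ _ (fun Xa => mul_nonneg (hμ _) (by positivity)), ?_⟩, ?_, ?_, ?_, ?_⟩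
  · rw [push_total, Fintype.sum_prod_type]
    dsimp only
    simp_rw [Finset.sum_const, Finset.card_univ, Fintype.card_fun, Fintype.card_fin, nsmul_eq_mul]
    refine Eq.trans ?_ hμ1
    refine Finset.sum_congr rfl fun X _ => ?_
    rw [Nat.cast_pow]
    field_simp
  · intro u hu
    obtain ⟨X, rfl⟩ := push_ne _ _ _ hu
    exact hσd X
  · intro u hu
    obtain ⟨Xa, rfl⟩ := push_ne _ _ _ hu
    exact ⟨hσd _, (hσs _).2 (plant_sat s _ _)⟩
  · rw [push_sum _ σ (fun u => if OvYes u then (1 : ℝ) else 0)]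
    have h1 := sat_prob (N := dom T b) s hp0 hp1
    have h2 := sat_arith Q (3 * T) b m' n (ε / 4) hexp
    have h2' : (((dom T b : ℕ) : ℝ)) ^ (Q * m') * p ^ (Q * m') ≤
        2 ^ (-((1 - ε / 4) * n / 2)) := by rw [hp]; exact h2
    have h3 : (2 : ℝ) ^ (-((1 - ε / 4) * n / 2)) ≤ (N : ℝ) ^ (-(1 - ε)) := by
      rw [hN2, ← Real.rpow_mul (by norm_num)]
      apply Real.rpow_le_rpow_of_exponent_le (by norm_num)
      rw [hnR]
      have g1 : (1 - ε / 4) * (L - 1) ≤ (1 - ε / 4) * K :=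
        mul_le_mul_of_nonneg_left (by linarith only [hLK]) (by linarith only [hε1])
      linarith only [g1, hLε, hε]
    refine le_trans (le_of_eq ?_) ((h1.trans h2').trans h3)
    unfold Ex
    refine Finset.sum_congr rfl fun X _ => ?_
    beta_reduce
    by_cases hX : Sat s X
    · rw [if_pos hX, if_pos ((hσs X).2 hX)]
    · rw [if_neg hX, if_neg (fun h => hX ((hσs X).1 h))]
  · intro P M hP hKl
    rw [push_sum _ σ (fun u => if M.answer T u = true then (1 : ℝ) else 0),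
      push_sum _ _ (fun u => if M.answer T u = true then (1 : ℝ) else 0)]
    have hcon : (P : ℝ) ≤ 2 ^ ((1 - ε / 4) * n) := by
      refine hP.trans ?_
      rw [hN2, ← Real.rpow_mul (by norm_num)]
      apply Real.rpow_le_rpow_of_exponent_le (by norm_num)
      have e1 : (1 - ε / 4) * (2 * L - 2) ≤ (1 - ε / 4) * n := by
        apply mul_le_mul_of_nonneg_left _ (by linarith)
        rw [hnR]; linarith
      linarith
    have hNn : N ≤ 2 ^ n := by
      refine hK2.le.trans (Nat.pow_le_pow_right (by norm_num) ?_)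
      omega
    refine (hM (OvBits N D) σ hσ P M hcon (fun q => (hKl q).trans ?_)).trans ?_
    · rw [mul_comm, pow_mul]
      exact Nat.pow_le_pow_left hNn Kc
    have h4 : (4 : ℝ) ≤ 2 ^ ((3 * T * b : ℕ) / 2 : ℝ) := by
      have h5 : (2 : ℝ) ≤ (3 * T * b : ℕ) / 2 := by
        rw [le_div_iff₀ (by norm_num)]
        have : 4 ≤ 3 * T * b := by omega
        have h6 : ((4 : ℕ) : ℝ) ≤ ((3 * T * b : ℕ) : ℝ) := by exact_mod_cast this
        push_cast at h6 ⊢
        linarith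
      calc (4 : ℝ) = 2 ^ (2 : ℝ) := by norm_num
        _ ≤ 2 ^ ((3 * T * b : ℕ) / 2 : ℝ) := Real.rpow_le_rpow_of_exponent_le (by norm_num) h5
    have h5 : (2 : ℝ) ^ (3 * T * b) = 2 ^ ((3 * T * b : ℕ) / 2 : ℝ) * 2 ^ ((3 * T * b : ℕ) / 2 : ℝ) := by
      rw [← Real.rpow_add (by norm_num), add_halves, Real.rpow_natCast]
    have h6 : (2 : ℝ) ^ (-((w : ℝ) / C)) = 1 / 2 ^ ((w : ℝ) / C) := by
      rw [Real.rpow_neg (by norm_num), one_div]
    have h7 : (2 : ℝ) ^ ((w : ℝ) / C) ≤ 2 ^ ((3 * T * b : ℕ) / 2 : ℝ) := by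
      apply Real.rpow_le_rpow_of_exponent_le (by norm_num)
      rw [div_le_div_iff₀ hC0 (by norm_num)]
      have h8 : (w : ℝ) ≤ 8 * (2 * Q ^ 2 + 14 + 1) * (3 * T * b) := by
        have : ((w : ℕ) : ℝ) ≤ ((8 * ar Q * (3 * T * b) : ℕ) : ℝ) := by exact_mod_cast hwb
        unfold ar at this
        push_cast at this
        exact this
      have h9 : 16 * (2 * (Q : ℝ) ^ 2 + 14 + 1) * (3 * T * b) ≤ C * (3 * T * b) := by
        apply mul_le_mul_of_nonneg_right _ (by positivity)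
        rw [hC]; linarith only [hC', h4ε]
      push_cast
      linarith only [h8, h9]
    rw [h6, h5, div_le_div_iff₀ (by positivity) (by positivity)]
    have h8 : (0 : ℝ) < 2 ^ ((3 * T * b : ℕ) / 2 : ℝ) := by positivity
    have h9 := mul_le_mul_of_nonneg_right h4 h8.le
    linarith only [h9, h7, h8]

end Pool.Agent.W964.Pram
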