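import Mathlib
import Pool.Agent.W964.Pram.OvHard
import Pool.Agent.W964.Pram.RandMachine

/-!
The orthogonal vectors problem and parallel machines: average case and randomized machines.
-/

set_option linter.unusedSectionVars false

namespace Pool.Agent.W964.Pram

open Finset SmallDepth Filter

open Classical in
/-- The average-case statement, with the probability of a correct answer. -/
theorem ov_average (ε : ℝ) (hε : 0 < ε) (Kc : ℕ) : ∃ C : ℝ, 0 < C ∧
    ∀ N D T w : ℕ, 4 ≤ N → 1 ≤ T →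
    C * (T * Real.log (Real.logb 2 N)) ≤ w → (w : ℝ) ≤ Real.logb 2 N → 4 ^ w ≤ D →
    ∃ ν₀ ν₁ : (OvBits N D → Bool) → ℝ,
      ((∀ x, 0 ≤ ν₀ x) ∧ ∑ x, ν₀ x = 1) ∧ ((∀ x, 0 ≤ ν₁ x) ∧ ∑ x, ν₁ x = 1) ∧
      (∀ x, ν₀ x ≠ 0 → OvDistinct x) ∧ (∀ x, ν₁ x ≠ 0 → OvDistinct x ∧ OvYes x) ∧
      (∑ x, ν₀ x * (if OvYes x then 1 else 0)) ≤ (N : ℝ) ^ (-(1 - ε)) ∧
      ∀ (P : ℕ) (M : Machine (OvBits N D) P), (P : ℝ) ≤ (N : ℝ) ^ (2 - ε) →
        M.Lists (N ^ Kc) →
        |(∑ x, ν₀ x * (if M.answer T x = true then 1 else 0)) -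
          ∑ x, ν₁ x * (if M.answer T x = true then 1 else 0)| ≤ (2 : ℝ) ^ (-((w : ℝ) / C)) ∧
        ∑ x, (ν₀ x + ν₁ x) / 2 * (if (M.answer T x = true ↔ OvYes x) then 1 else 0) ≤
          1 / 2 + (2 : ℝ) ^ (-((w : ℝ) / C)) := by
  obtain ⟨C, hC, H⟩ := ov_pram (min ε (1 / 2)) (lt_min hε (by norm_num))
    (lt_of_le_of_lt (min_le_right _ _) (by norm_num)) Kc
  have hm1 : min ε (1 / 2) ≤ ε := min_le_left _ _
  have hm2 : min ε (1 / 2) ≤ 1 / 2 := min_le_right _ _
  refine ⟨max C 2, lt_max_of_lt_left hC, ?_⟩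
  intro N D T w hN hT hw hwL hD
  have hNR : (4 : ℝ) ≤ N := by exact_mod_cast hN
  have hN0 : (0 : ℝ) < N := by linarith
  obtain ⟨L, hL⟩ : ∃ L : ℝ, L = Real.logb 2 N := ⟨_, rfl⟩
  have hN2 : (N : ℝ) = 2 ^ L := by
    rw [hL, Real.rpow_logb (by norm_num) (by norm_num) hN0]
  have hL2 : 2 ≤ L := by
    rw [hL, Real.le_logb_iff_rpow_le (by norm_num) hN0]
    norm_num
    exact hN
  have hlog : 0 ≤ (T : ℝ) * Real.log (Real.logb 2 N) := by
    have := Real.log_nonneg (by rw [← hL]; linarith : (1 : ℝ) ≤ Real.logb 2 N)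
    positivity
  obtain ⟨ν₀, ν₁, h0, h1, hd0, hd1, hsat, hK⟩ := H N D T w hN hT
    (le_trans (mul_le_mul_of_nonneg_right (le_max_left _ _) hlog) hw) hwL hD
  have hexp : (2 : ℝ) ^ (-((w : ℝ) / C)) ≤ (2 : ℝ) ^ (-((w : ℝ) / max C 2)) := by
    apply Real.rpow_le_rpow_of_exponent_le (by norm_num)
    rw [neg_le_neg_iff]
    exact div_le_div_of_nonneg_left (Nat.cast_nonneg w) hC (le_max_left _ _)
  have hexp2 : (N : ℝ) ^ (-(1 - min ε (1 / 2))) ≤ (2 : ℝ) ^ (-((w : ℝ) / max C 2)) := by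
    rw [hN2, ← Real.rpow_mul (by norm_num)]
    apply Real.rpow_le_rpow_of_exponent_le (by norm_num)
    rw [mul_neg, neg_le_neg_iff]
    rw [← hL] at hwL
    calc (w : ℝ) / max C 2 ≤ (w : ℝ) / 2 := div_le_div_of_nonneg_left (Nat.cast_nonneg w)
          (by norm_num) (le_max_right _ _)
      _ ≤ L / 2 := by linarith
      _ ≤ L * (1 - min ε (1 / 2)) := by nlinarith
  refine ⟨ν₀, ν₁, h0, h1, hd0, hd1, ?_, ?_⟩
  · refine hsat.trans ?_
    apply Real.rpow_le_rpow_of_exponent_le (by linarith)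
    linarith
  · intro P M hP hKl
    have hP' : (P : ℝ) ≤ (N : ℝ) ^ (2 - min ε (1 / 2)) := by
      refine hP.trans ?_
      apply Real.rpow_le_rpow_of_exponent_le (by linarith)
      linarith
    have hadv := hK P M hP' hKl
    refine ⟨hadv.trans hexp, ?_⟩
    refine (decide_le ν₀ ν₁ (fun x => OvYes x) (M.answer T) h0.1 h0.2
      (fun x hx => (hd1 x hx).2) _ _ hsat hadv).trans ?_
    linarith [hexp, hexp2]

/-- Every randomized parallel machine with few processors fails on some instance. -/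
theorem ov_random (ε : ℝ) (hε : 0 < ε) (Kc : ℕ) : ∃ C : ℝ, 0 < C ∧
    ∀ N D T w : ℕ, 4 ≤ N → 1 ≤ T →
    C * (T * Real.log (Real.logb 2 N)) ≤ w → (w : ℝ) ≤ Real.logb 2 N → 4 ^ w ≤ D →
      ∀ (P : ℕ) (R : RandMachine (OvBits N D) P), (P : ℝ) ≤ (N : ℝ) ^ (2 - ε) →
        R.Lists (N ^ Kc) →
        ∃ x, OvDistinct x ∧ R.success T x (OvYes x) ≤ 1 / 2 + (2 : ℝ) ^ (-((w : ℝ) / C)) := by
  classical
  obtain ⟨C, hC, H⟩ := ov_average ε hε Kc
  refine ⟨C, hC, ?_⟩
  intro N D T w hN hT hw hwL hD P R hP hR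
  obtain ⟨ν₀, ν₁, h0, h1, hd0, hd1, _, hK⟩ := H N D T w hN hT hw hwL hD
  refine R.exists_le T (fun x => (ν₀ x + ν₁ x) / 2) (fun x => ?_) ?_ OvDistinct OvYes ?_ _
    (fun ω => ?_)
  · have := h0.1 x
    have := h1.1 x
    positivity
  · rw [← Finset.sum_div, Finset.sum_add_distrib, h0.2, h1.2]
    norm_num
  · intro x hx
    by_cases h2 : ν₀ x = 0
    · by_cases h3 : ν₁ x = 0
      · exfalso
        apply hx
        rw [h2, h3]
        norm_num
      · exact (hd1 x h3).1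
    · exact hd0 x h2
  · have h2 := (hK P (R.mach ω) hP (hR ω)).2
    refine le_trans (le_of_eq ?_) h2
    exact Finset.sum_congr rfl fun x _ => by congr!

/-- The form of the orthogonal vectors hypothesis for randomized parallel machines. -/
theorem ov_q1 (a b Kc : ℕ) (hab : a < 2 * b) (T : ℕ → ℕ) (hT : ∀ N, 1 ≤ T N)
    (hTo : (fun N : ℕ => (T N : ℝ) * Real.log (Real.logb 2 N)) =o[atTop]
      (fun N : ℕ => Real.logb 2 N)) :
    ∃ D : ℕ → ℕ, (∃ C : ℝ, ∀ N, 16 ≤ N → (D N : ℝ) ≤ (Real.logb 2 N) ^ (C * T N)) ∧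
      ∀ c e : ℕ, ∀ᶠ N : ℕ in atTop, ∀ (P : ℕ) (R : RandMachine (OvBits N (D N)) P),
        (P : ℝ) ≤ (N : ℝ) ^ ((a : ℝ) / b) * (c * ((D N : ℝ) + 1) ^ e) → R.Lists (N ^ Kc) →
        ∃ x, OvDistinct x ∧ R.success (T N) x (OvYes x) < 2 / 3 := by
  have hb : (0 : ℝ) < b := by exact_mod_cast (by omega : 0 < b)
  have habR : (a : ℝ) / b < 2 := by rw [div_lt_iff₀ hb]; exact_mod_cast hab
  obtain ⟨ε, hε⟩ : ∃ ε : ℝ, ε = (2 - (a : ℝ) / b) / 2 := ⟨_, rfl⟩
  have hε0 : 0 < ε := by rw [hε]; linarith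
  obtain ⟨C, hC, H⟩ := ov_random ε hε0 Kc
  -- the width
  obtain ⟨w, hw⟩ : ∃ w : ℕ → ℕ, w = fun N => ⌈C * (T N * Real.log (Real.logb 2 N))⌉₊ := ⟨_, rfl⟩
  have hwge : ∀ N, C * (T N * Real.log (Real.logb 2 N)) ≤ w N := by
    intro N; rw [hw]; exact Nat.le_ceil _
  have hloglog : Tendsto (fun N : ℕ => Real.log (Real.logb 2 N)) atTop atTop :=
    Real.tendsto_log_atTop.comp
      ((Real.tendsto_logb_atTop (by norm_num)).comp tendsto_natCast_atTop_atTop)
  have hlogb : Tendsto (fun N : ℕ => Real.logb 2 (N : ℝ)) atTop atTop :=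
    (Real.tendsto_logb_atTop (by norm_num)).comp tendsto_natCast_atTop_atTop
  refine ⟨fun N => 4 ^ w N, ⟨2 * C + 1, ?_⟩, ?_⟩
  · intro N hN
    obtain ⟨L, hL⟩ : ∃ L : ℝ, L = Real.logb 2 N := ⟨_, rfl⟩
    have hNR : (16 : ℝ) ≤ N := by exact_mod_cast hN
    have hL4 : 4 ≤ L := by
      rw [hL, Real.le_logb_iff_rpow_le (by norm_num) (by linarith)]
      norm_num
      exact hN
    have hTR : (1 : ℝ) ≤ T N := by exact_mod_cast hT N
    rw [← hL]
    have hlogL : 0 < Real.log L := Real.log_pos (by linarith)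
    have h1 : (w N : ℝ) ≤ C * (T N * Real.log L) + 1 := by
      rw [congrFun hw N, ← hL]
      exact (Nat.ceil_lt_add_one (by positivity)).le
    push_cast
    rw [← Real.rpow_natCast, Real.rpow_def_of_pos (by norm_num), Real.rpow_def_of_pos (by linarith)]
    apply Real.exp_le_exp.2
    have hl4 : Real.log 4 ≤ Real.log L := Real.log_le_log (by norm_num) hL4
    have hl4' : Real.log 4 ≤ 2 := by
      have h4 : Real.log 4 = 2 * Real.log 2 := by
        rw [show (4 : ℝ) = 2 ^ 2 by norm_num, Real.log_pow]; norm_num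
      have := Real.log_two_lt_d9
      linarith
    have hl40 : 0 ≤ Real.log 4 := Real.log_nonneg (by norm_num)
    calc Real.log 4 * (w N : ℝ) ≤ Real.log 4 * (C * (T N * Real.log L) + 1) := by gcongr
      _ = Real.log 4 * (C * (T N * Real.log L)) + Real.log 4 := by ring
      _ ≤ 2 * (C * (T N * Real.log L)) + T N * Real.log L := by
          have h5 : Real.log 4 * (C * (T N * Real.log L)) ≤ 2 * (C * (T N * Real.log L)) :=
            mul_le_mul_of_nonneg_right hl4' (by positivity)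
          have h6 : 1 * Real.log L ≤ T N * Real.log L := mul_le_mul_of_nonneg_right hTR hlogL.le
          linarith
      _ = Real.log L * ((2 * C + 1) * T N) := by ring
  · intro c e
    -- the exponent of the polynomial factor
    have hE : (fun N : ℕ => (c : ℝ) + e * (1 + 2 * (C * (T N * Real.log (Real.logb 2 N)) + 1)))
        =o[atTop] (fun N : ℕ => Real.logb 2 N) := by
      have hconst : ∀ r : ℝ, (fun _ : ℕ => r) =o[atTop] (fun N : ℕ => Real.logb 2 (N : ℝ)) :=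
        fun r => Asymptotics.isLittleO_const_left.2 (Or.inr
          (tendsto_norm_atTop_atTop.comp hlogb))
      have h1 : (fun N : ℕ => (c : ℝ) + e * (1 + 2 * (C * (T N * Real.log (Real.logb 2 N)) + 1))) =
          fun N : ℕ => ((c : ℝ) + 3 * e) + (2 * e * C) * (T N * Real.log (Real.logb 2 N)) := by
        funext N; ring
      rw [h1]
      exact (hconst _).add (hTo.const_mul_left _)
    have hW : (fun N : ℕ => C * (T N * Real.log (Real.logb 2 N)) + 1)
        =o[atTop] (fun N : ℕ => Real.logb 2 N) := by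
      have hconst : (fun _ : ℕ => (1 : ℝ)) =o[atTop] (fun N : ℕ => Real.logb 2 (N : ℝ)) :=
        Asymptotics.isLittleO_const_left.2 (Or.inr (tendsto_norm_atTop_atTop.comp hlogb))
      exact (hTo.const_mul_left _).add hconst
    filter_upwards [hE.bound hε0, hW.bound (zero_lt_one), hlogb.eventually (eventually_ge_atTop 2),
      hloglog.eventually (eventually_ge_atTop 3), eventually_ge_atTop 4] with N h1 h2 h3 h4 h5
    obtain ⟨L, hL⟩ : ∃ L : ℝ, L = Real.logb 2 N := ⟨_, rfl⟩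
    rw [← hL] at h1 h2 h3 h4
    have hNR : (4 : ℝ) ≤ N := by exact_mod_cast h5
    have hN0 : (0 : ℝ) < N := by linarith
    have hN : (N : ℝ) = 2 ^ L := by
      rw [hL, Real.rpow_logb (by norm_num) (by norm_num) hN0]
    have hTR : (1 : ℝ) ≤ T N := by exact_mod_cast hT N
    have hTL : 0 ≤ (T N : ℝ) * Real.log L := by positivity
    rw [Real.norm_of_nonneg (by positivity), Real.norm_of_nonneg (by linarith)] at h1 h2
    have hwle : (w N : ℝ) ≤ C * (T N * Real.log L) + 1 := by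
      rw [congrFun hw N, ← hL]
      exact (Nat.ceil_lt_add_one (by positivity)).le
    have hwge' := hwge N
    rw [← hL] at hwge'
    intro P R hP hR
    have hPle : (P : ℝ) ≤ (N : ℝ) ^ (2 - ε) := by
      refine hP.trans ?_
      have hDle : ((4 ^ w N : ℕ) : ℝ) + 1 ≤ 2 ^ (1 + 2 * (C * (T N * Real.log L) + 1)) := by
        have g1 : (1 : ℝ) ≤ 4 ^ w N := one_le_pow₀ (by norm_num)
        have g2 : (4 : ℝ) ^ w N = 2 ^ (2 * (w N : ℝ)) := by
          rw [Real.rpow_mul (by norm_num), Real.rpow_natCast]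
          norm_num
        have g3 : (4 : ℝ) ^ w N ≤ 2 ^ (2 * (C * (T N * Real.log L) + 1)) := by
          rw [g2]
          apply Real.rpow_le_rpow_of_exponent_le (by norm_num)
          linarith
        rw [Real.rpow_add (by norm_num), Real.rpow_one]
        push_cast
        linarith
      have hc : (c : ℝ) ≤ 2 ^ (c : ℝ) := by
        rw [Real.rpow_natCast]
        exact_mod_cast Nat.lt_two_pow_self.le
      calc (N : ℝ) ^ ((a : ℝ) / b) * (c * (((4 ^ w N : ℕ) : ℝ) + 1) ^ e)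
          ≤ (N : ℝ) ^ ((a : ℝ) / b) * (2 ^ (c : ℝ) *
            (2 ^ (1 + 2 * (C * (T N * Real.log L) + 1))) ^ e) := by gcongr
        _ = 2 ^ (L * ((a : ℝ) / b) + ((c : ℝ) + e * (1 + 2 * (C * (T N * Real.log L) + 1)))) := by
            rw [hN, ← Real.rpow_mul (by norm_num), ← Real.rpow_natCast (2 ^ _ : ℝ) e,
              ← Real.rpow_mul (by norm_num), ← Real.rpow_add (by norm_num),
              ← Real.rpow_add (by norm_num)]
            congr 1
            ring
        _ ≤ 2 ^ (L * ((a : ℝ) / b) + ε * L) := by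
            apply Real.rpow_le_rpow_of_exponent_le (by norm_num)
            linarith
        _ = 2 ^ (L * (2 - ε)) := by
            congr 1
            have h9 : (a : ℝ) / b = 2 - 2 * ε := by rw [hε]; ring
            rw [h9]; ring
        _ = (N : ℝ) ^ (2 - ε) := by rw [hN, ← Real.rpow_mul (by norm_num)]
    obtain ⟨x, hx1, hx2⟩ := H N (4 ^ w N) (T N) (w N) h5 (hT N) (hwge N) (by
      rw [← hL]; linarith) le_rfl P R hPle hR
    refine ⟨x, hx1, lt_of_le_of_lt hx2 ?_⟩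
    have h6 : (2 : ℝ) ^ (-((w N : ℝ) / C)) ≤ 2 ^ (-(3 : ℝ)) := by
      apply Real.rpow_le_rpow_of_exponent_le (by norm_num)
      rw [neg_le_neg_iff, le_div_iff₀ hC]
      have h7 : 1 * 3 ≤ (T N : ℝ) * Real.log L := mul_le_mul hTR h4 (by norm_num) (by linarith)
      have h8 : C * 3 ≤ C * (T N * Real.log L) := mul_le_mul_of_nonneg_left (by linarith) hC.le
      linarith
    have h7 : (2 : ℝ) ^ (-(3 : ℝ)) = 1 / 8 := by
      rw [Real.rpow_neg (by norm_num)]
      norm_num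
    rw [h7] at h6
    linarith

end Pool.Agent.W964.Pram
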