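import Mathlib
import Pool.Agent.H592R3.Cnf

/-!
CNF formulas with a given number of satisfying assignments, and sums of numbers of satisfying
assignments.
-/

set_option linter.unusedSectionVars false

namespace Pool.Agent.W964.Pram

open Finset H568R2 H592R3 SmallDepth

/-- The number of assignments that satisfy all clauses of a family of clauses. -/
noncomputable def cnt {ι : Type} {n : ℕ} (x : ι → Fin n → Bool → Bool) : ℕ :=
  {α : Fin n → Bool | ∀ c, ∃ v, x c v (α v) = true}.ncard

lemma cnt_succ {ι : Type} {n : ℕ} (x : ι → Fin (n + 1) → Bool → Bool) (A B : Set (Fin n → Bool))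
    (hA : ∀ α : Fin n → Bool, α ∈ A ↔
      ∀ c, ∃ v, x c v ((Fin.cons false α : Fin (n + 1) → Bool) v) = true)
    (hB : ∀ α : Fin n → Bool, α ∈ B ↔
      ∀ c, ∃ v, x c v ((Fin.cons true α : Fin (n + 1) → Bool) v) = true) :
    cnt x = A.ncard + B.ncard := by
  have hinj : ∀ b : Bool, Function.Injective
      (fun α : Fin n → Bool => (Fin.cons b α : Fin (n + 1) → Bool)) := by
    intro b α β h
    exact (Fin.cons_inj.1 h).2
  have h1 : {α : Fin (n + 1) → Bool | ∀ c, ∃ v, x c v (α v) = true} =
      ((fun α : Fin n → Bool => (Fin.cons false α : Fin (n + 1) → Bool)) '' A) ∪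
      ((fun α : Fin n → Bool => (Fin.cons true α : Fin (n + 1) → Bool)) '' B) := by
    ext α
    constructor
    · intro hα
      rcases hb : α 0 with _ | _
      · left
        refine ⟨Fin.tail α, ?_, ?_⟩
        · rw [hA]
          have : (Fin.cons false (Fin.tail α) : Fin (n + 1) → Bool) = α := by
            rw [← hb]; exact Fin.cons_self_tail α
          rw [this]
          exact hα
        · show (Fin.cons false (Fin.tail α) : Fin (n + 1) → Bool) = α
          rw [← hb]; exact Fin.cons_self_tail α
      · right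
        refine ⟨Fin.tail α, ?_, ?_⟩
        · rw [hB]
          have : (Fin.cons true (Fin.tail α) : Fin (n + 1) → Bool) = α := by
            rw [← hb]; exact Fin.cons_self_tail α
          rw [this]
          exact hα
        · show (Fin.cons true (Fin.tail α) : Fin (n + 1) → Bool) = α
          rw [← hb]; exact Fin.cons_self_tail α
    · rintro (⟨β, hβ, rfl⟩ | ⟨β, hβ, rfl⟩)
      · exact (hA β).1 hβ
      · exact (hB β).1 hβ
  unfold cnt
  rw [h1, Set.ncard_union_eq, Set.ncard_image_of_injective _ (hinj false),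
    Set.ncard_image_of_injective _ (hinj true)]
  · rw [Set.disjoint_left]
    rintro _ ⟨β, _, rfl⟩ ⟨γ, _, h⟩
    have := congrFun h 0
    simp at this

/-- Every number between `0` and `2 ^ n` is the number of satisfying assignments of a formula with
`n` variables and at most `n + 1` clauses. -/
theorem exists_count (n : ℕ) : ∀ a : ℕ, a ≤ 2 ^ n → ∃ (ι : Type) (_ : Fintype ι),
    Fintype.card ι ≤ n + 1 ∧ ∃ x : ι → Fin n → Bool → Bool, cnt x = a := by
  induction n with
  | zero =>
    intro a ha
    rw [pow_zero] at ha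
    rcases Nat.lt_or_ge a 1 with h | h
    · refine ⟨Unit, inferInstance, by simp, fun _ _ _ => false, ?_⟩
      have : a = 0 := by omega
      subst this
      unfold cnt
      rw [Set.ncard_eq_zero]
      ext α
      simp
    · refine ⟨Empty, inferInstance, by simp, fun _ _ _ => false, ?_⟩
      have : a = 1 := by omega
      subst this
      unfold cnt
      have h1 : {α : Fin 0 → Bool | ∀ c : Empty, ∃ v : Fin 0, (fun (_ : Empty) (_ : Fin 0)
          (_ : Bool) => false) c v (α v) = true} = Set.univ := by
        ext α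
        simp
      rw [h1, Set.ncard_univ]
      simp
  | succ n ih =>
    intro a ha
    rcases Nat.lt_or_ge (2 ^ n) a with h | h
    · -- `2 ^ n < a`
      obtain ⟨ι, hι, hcard, x, hx⟩ := ih (a - 2 ^ n) (by rw [pow_succ] at ha; omega)
      refine ⟨ι, hι, by omega, fun c v b => Fin.cases (!b) (fun v' => x c v' b) v, ?_⟩
      rw [cnt_succ _ Set.univ {α : Fin n → Bool | ∀ c, ∃ v, x c v (α v) = true}]
      · have h2 : ({α : Fin n → Bool | ∀ c, ∃ v, x c v (α v) = true}).ncard = a - 2 ^ n := hx
        rw [h2, Set.ncard_univ, Nat.card_eq_fintype_card, Fintype.card_fun, Fintype.card_fin,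
          Fintype.card_bool]
        omega
      · intro α
        simp only [Set.mem_univ, true_iff]
        intro c
        exact ⟨0, by simp⟩
      · intro α
        refine forall_congr' fun c => ?_
        rw [Fin.exists_fin_succ]
        simp
    · -- `a ≤ 2 ^ n`
      obtain ⟨ι, hι, hcard, x, hx⟩ := ih a h
      refine ⟨Option ι, inferInstance, by rw [Fintype.card_option]; omega,
        fun c v b => c.elim (Fin.cases (!b) (fun _ => false) v)
          (fun c' => Fin.cases false (fun v' => x c' v' b) v), ?_⟩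
      rw [cnt_succ _ {α : Fin n → Bool | ∀ c, ∃ v, x c v (α v) = true} ∅]
      · have h2 : ({α : Fin n → Bool | ∀ c, ∃ v, x c v (α v) = true}).ncard = a := hx
        rw [h2, Set.ncard_empty, add_zero]
      · intro α
        rw [Option.forall]
        constructor
        · intro h2
          refine ⟨⟨0, by simp⟩, fun c => ?_⟩
          rw [Fin.exists_fin_succ]
          simpa using h2 c
        · rintro ⟨_, h2⟩ c
          have h3 := h2 c
          rw [Fin.exists_fin_succ] at h3
          simpa using h3
      · intro α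
        simp only [Set.mem_empty_iff_false, false_iff]
        intro hα
        obtain ⟨v, hv⟩ := hα none
        revert hv
        refine Fin.cases ?_ (fun v' => ?_) v
        · simp
        · simp

/-- Two formulas with a selector variable. -/
def glue {ι₁ ι₂ : Type} {n : ℕ} (x₁ : ι₁ → Fin n → Bool → Bool) (x₂ : ι₂ → Fin n → Bool → Bool) :
    (ι₁ ⊕ ι₂) ⊕ Fin (n + 1) → Fin (n + 1) → Bool → Bool
  | Sum.inl (Sum.inl c), v, b => Fin.cases b (fun v' => x₁ c v' b) v
  | Sum.inl (Sum.inr c), v, b => Fin.cases (!b) (fun v' => x₂ c v' b) v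
  | Sum.inr u, v, _ => decide (u = v)

lemma cnt_glue {ι₁ ι₂ : Type} {n : ℕ} (x₁ : ι₁ → Fin n → Bool → Bool)
    (x₂ : ι₂ → Fin n → Bool → Bool) : cnt (glue x₁ x₂) = cnt x₁ + cnt x₂ := by
  rw [cnt_succ _ {α : Fin n → Bool | ∀ c, ∃ v, x₁ c v (α v) = true}
    {α : Fin n → Bool | ∀ c, ∃ v, x₂ c v (α v) = true}]
  · rfl
  · intro α
    rw [Sum.forall, Sum.forall]
    constructor
    · intro h
      refine ⟨⟨fun c => ?_, fun c => ⟨0, by simp [glue]⟩⟩, fun u => ⟨u, by simp [glue]⟩⟩
      rw [Fin.exists_fin_succ]
      simpa [glue] using h c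
    · rintro ⟨⟨h1, _⟩, _⟩ c
      have h3 := h1 c
      rw [Fin.exists_fin_succ] at h3
      simpa [glue] using h3
  · intro α
    rw [Sum.forall, Sum.forall]
    constructor
    · intro h
      refine ⟨⟨fun c => ⟨0, by simp [glue]⟩, fun c => ?_⟩, fun u => ⟨u, by simp [glue]⟩⟩
      rw [Fin.exists_fin_succ]
      simpa [glue] using h c
    · rintro ⟨⟨_, h1⟩, _⟩ c
      have h3 := h1 c
      rw [Fin.exists_fin_succ] at h3
      simpa [glue] using h3

/-- Repeating clauses does not change the number of satisfying assignments. -/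
lemma cnt_surj {ι κ : Type} {n : ℕ} (x : ι → Fin n → Bool → Bool) (π : κ → ι)
    (hπ : Function.Surjective π) : cnt (fun c => x (π c)) = cnt x := by
  unfold cnt
  congr 1
  ext α
  exact (hπ.forall (p := fun c => ∃ v, x c v (α v) = true)).symm

/-- The number of satisfying assignments of the formula of a constraint satisfaction problem. -/
lemma cnt_csp {m n B ℓ M : ℕ} {s : Fin m → Fin B → Fin m} {e : (Fin m × Fin ℓ) ↪ Fin n}
    {dec : (Fin ℓ → Bool) ≃ Fin (2 ^ ℓ)} {v0 : Fin n}
    {π : Fin M → (Fin m × (Fin B → Fin (2 ^ ℓ))) ⊕ Fin n} (hπ : Function.Surjective π)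
    (X : (Fin m × (Fin B → Fin (2 ^ ℓ))) → Bool) :
    cnt (fun c v b => cnfOf s e dec v0 π X (c, v, b)) =
      {a : Fin m → Fin (2 ^ ℓ) | ∀ j, X (j, fun k => a (s j k)) = true}.ncard := by
  unfold cnt
  have h0 : {α : Fin n → Bool | ∀ c, ∃ v, (fun c v b => cnfOf s e dec v0 π X (c, v, b)) c v (α v)
      = true} = {α : Fin n → Bool | (∀ v, v ∉ Set.range e → α v = false) ∧
      ∀ j, X (j, fun k => dec (fun i => α (e (s j k, i)))) = true} := by
    ext α
    exact cnfOf_models hπ X α
  have hext : ∀ (a : Fin m → Fin (2 ^ ℓ)) (u : Fin m), dec (fun i => Function.extend e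
      (fun p : Fin m × Fin ℓ => dec.symm (a p.1) p.2) (fun _ => false) (e (u, i))) = a u := by
    intro a u
    have h2 : (fun i => Function.extend e
        (fun p : Fin m × Fin ℓ => dec.symm (a p.1) p.2) (fun _ => false) (e (u, i))) =
          dec.symm (a u) := by
      funext i
      rw [e.injective.extend_apply]
    rw [h2, Equiv.apply_symm_apply]
  rw [h0]
  symm
  apply Set.ncard_congr (fun a _ => Function.extend e
    (fun p : Fin m × Fin ℓ => dec.symm (a p.1) p.2) (fun _ => false))
  · intro a ha
    refine ⟨?_, ?_⟩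
    · intro v hv
      rw [Function.extend_apply']
      rintro ⟨p, hp⟩
      exact hv ⟨p, hp⟩
    · intro j
      simp_rw [hext]
      exact ha j
  · intro a b _ _ h
    funext u
    have h1 := hext a u
    have h2 := hext b u
    rw [h] at h1
    exact h1.symm.trans h2
  · rintro α ⟨h1, h2⟩
    refine ⟨fun v => dec (fun i => α (e (v, i))), h2, ?_⟩
    funext v
    by_cases hv : v ∈ Set.range e
    · obtain ⟨p, rfl⟩ := hv
      rw [e.injective.extend_apply, Equiv.symm_apply_apply]
    · rw [Function.extend_apply', h1 v hv]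
      rintro ⟨p, hp⟩
      exact hv ⟨p, hp⟩

end Pool.Agent.W964.Pram
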