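import Mathlib
import Pool.Agent.W964.Pram.Adv

/-!
Random instances with a planted solution have no other solution, with high probability, and
conditioning.
-/

set_option linter.unusedSectionVars false

namespace Pool.Agent.W964.Pram

open Finset H568R2 H592R3

/-- The solutions of a constraint satisfaction problem. -/
def Sols {m r N : ℕ} (s : Fin m → Fin r → Fin m) (X : (Fin m × (Fin r → Fin N)) → Bool) :
    Set (Fin m → Fin N) := {a | ∀ j, X (j, fun k => a (s j k)) = true}

lemma sols_empty {m r N : ℕ} {s : Fin m → Fin r → Fin m}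
    {X : (Fin m × (Fin r → Fin N)) → Bool} (h : ¬ Sat s X) : (Sols s X).ncard = 0 := by
  rw [Set.ncard_eq_zero (Set.toFinite _)]
  ext a
  simp only [Set.mem_empty_iff_false, iff_false]
  intro ha
  exact h ⟨a, ha⟩

open Classical in
/-- The expected number of other solutions. -/
lemma other_prob {m r N : ℕ} (s : Fin m → Fin (r + 1) → Fin m) (hs : ∀ i, s i 0 = i) {p : ℝ}
    (hp0 : 0 ≤ p) (hp1 : p ≤ 1) (a : Fin m → Fin N) :
    Ex (vp p) (fun X : (Fin m × (Fin (r + 1) → Fin N)) → Bool =>
      if (Sols s (plant (vr s a) univ X)).ncard ≠ 1 then (1 : ℝ) else 0) ≤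
      (1 + N * p) ^ m - 1 := by
  have hpt : ∀ X : (Fin m × (Fin (r + 1) → Fin N)) → Bool,
      (if (Sols s (plant (vr s a) univ X)).ncard ≠ 1 then (1 : ℝ) else 0) ≤
      ∑ b ∈ univ.erase a, 1 * (if ∀ i ∈ univ.image (vr s b) \ univ.image (vr s a), X i = true
        then (1 : ℝ) else 0) := by
    intro X
    have hnn : ∀ b ∈ (univ.erase a : Finset (Fin m → Fin N)), (0 : ℝ) ≤
        1 * (if ∀ i ∈ univ.image (vr s b) \ univ.image (vr s a), X i = true
          then (1 : ℝ) else 0) := by
      intro b _
      split_ifs <;> norm_num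
    by_cases hX : (Sols s (plant (vr s a) univ X)).ncard ≠ 1
    · rw [if_pos hX]
      have haS : a ∈ Sols s (plant (vr s a) univ X) := by
        intro c
        unfold plant
        simp only [Finset.mem_univ, true_and, Bool.or_eq_true, decide_eq_true_eq]
        exact Or.inl ⟨c, rfl⟩
      have hex : ∃ b, b ∈ Sols s (plant (vr s a) univ X) ∧ b ≠ a := by
        by_contra hcon
        push Not at hcon
        apply hX
        rw [Set.ncard_eq_one]
        refine ⟨a, ?_⟩
        ext b
        constructor
        · exact fun hb => hcon b hb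
        · rintro rfl
          exact haS
      obtain ⟨b, hb, hba⟩ := hex
      refine le_trans ?_ (Finset.single_le_sum hnn (Finset.mem_erase.2 ⟨hba, Finset.mem_univ b⟩))
      rw [if_pos, one_mul]
      intro i hi
      rw [Finset.mem_sdiff] at hi
      obtain ⟨c, _, rfl⟩ := Finset.mem_image.1 hi.1
      have h1 := hb c
      unfold plant at h1
      simp only [Finset.mem_univ, true_and, Bool.or_eq_true, decide_eq_true_eq] at h1
      rcases h1 with ⟨j, hj⟩ | h1
      · exfalso
        apply hi.2
        rw [Finset.mem_image]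
        exact ⟨j, Finset.mem_univ _, hj⟩
      · exact h1
    · rw [if_neg hX]
      exact Finset.sum_nonneg hnn
  refine (Ex_mono (vp_nonneg hp0 hp1) hpt).trans ?_
  rw [Ex_sum]
  have h1 : ∀ b : Fin m → Fin N, Ex (vp p) (fun X : (Fin m × (Fin (r + 1) → Fin N)) → Bool =>
      1 * (if ∀ i ∈ univ.image (vr s b) \ univ.image (vr s a), X i = true
        then (1 : ℝ) else 0)) ≤ ∏ i, (if b i = a i then 1 else p) := by
    intro b
    have h2 := Ex_indep (I := Fin m × (Fin (r + 1) → Fin N)) (vp_sum p) (fun b : Bool => b = true)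
      (univ.image (vr s b) \ univ.image (vr s a)) (fun _ => (1 : ℝ)) (fun _ _ _ _ => rfl)
    rw [Ex_const (vp_sum p), mul_one] at h2
    have h3 : ∑ a ∈ univ.filter (fun b : Bool => b = true), vp p a = p := by
      rw [Finset.sum_filter, Fintype.sum_bool]
      simp [vp]
    rw [h3] at h2
    have h4 : ∏ i, (if b i = a i then (1 : ℝ) else p) =
        p ^ (univ.filter (fun i => ¬ b i = a i)).card := by
      rw [Finset.prod_ite]
      simp
    have h5 : (univ.filter (fun i => ¬ b i = a i)).card ≤
        (univ.image (vr s b) \ univ.image (vr s a)).card := by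
      have h6 : (univ.filter (fun i => ¬ b i = a i)).image (vr s b) ⊆
          univ.image (vr s b) \ univ.image (vr s a) := by
        intro u hu
        obtain ⟨i, hi, rfl⟩ := Finset.mem_image.1 hu
        rw [Finset.mem_sdiff]
        refine ⟨Finset.mem_image_of_mem _ (Finset.mem_univ _), ?_⟩
        intro h7
        obtain ⟨j, _, hj⟩ := Finset.mem_image.1 h7
        have h8 : j = i := (Prod.mk.inj hj).1
        subst h8
        have h9 := congrFun (Prod.mk.inj hj).2 0
        rw [hs] at h9
        exact (Finset.mem_filter.1 hi).2 h9.symm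
      calc (univ.filter (fun i => ¬ b i = a i)).card =
          ((univ.filter (fun i => ¬ b i = a i)).image (vr s b)).card :=
            (Finset.card_image_of_injective _ (vr_inj s b)).symm
        _ ≤ _ := Finset.card_le_card h6
    rw [h4]
    refine (le_of_eq h2).trans ?_
    exact pow_le_pow_of_le_one hp0 hp1 h5
  have h2 : ∑ b : Fin m → Fin N, ∏ i, (if b i = a i then (1 : ℝ) else p) ≤ (1 + N * p) ^ m := by
    have h3 := Finset.prod_univ_sum (fun _ : Fin m => (univ : Finset (Fin N)))
      (fun i y => if y = a i then (1 : ℝ) else p)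
    rw [Fintype.piFinset_univ] at h3
    rw [← h3]
    calc ∏ i : Fin m, ∑ y : Fin N, (if y = a i then (1 : ℝ) else p)
        ≤ ∏ _i : Fin m, (1 + N * p) := by
          apply Finset.prod_le_prod
          · intro i _
            apply Finset.sum_nonneg
            intro y _
            split_ifs
            · norm_num
            · exact hp0
          · intro i _
            have h4 : ∑ y : Fin N, (if y = a i then (1 : ℝ) else p) ≤
                ∑ y : Fin N, ((if y = a i then (1 : ℝ) else 0) + p) := by
              apply Finset.sum_le_sum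
              intro y _
              split_ifs <;> linarith
            refine h4.trans (le_of_eq ?_)
            rw [Finset.sum_add_distrib, Finset.sum_ite_eq' univ (a i) (fun _ => (1 : ℝ)),
              if_pos (Finset.mem_univ _), Finset.sum_const, Finset.card_univ, Fintype.card_fin,
              nsmul_eq_mul]
      _ = (1 + N * p) ^ m := by
          rw [Finset.prod_const, Finset.card_univ, Fintype.card_fin]
  have h3 := Finset.sum_erase_eq_sub (s := (univ : Finset (Fin m → Fin N)))
    (f := fun b => ∏ i, (if b i = a i then (1 : ℝ) else p)) (Finset.mem_univ a)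
  calc ∑ b ∈ univ.erase a, Ex (vp p) (fun X : (Fin m × (Fin (r + 1) → Fin N)) → Bool =>
      1 * (if ∀ i ∈ univ.image (vr s b) \ univ.image (vr s a), X i = true
        then (1 : ℝ) else 0))
      ≤ ∑ b ∈ univ.erase a, ∏ i, (if b i = a i then (1 : ℝ) else p) :=
        Finset.sum_le_sum fun b _ => h1 b
    _ = ∑ b : Fin m → Fin N, ∏ i, (if b i = a i then (1 : ℝ) else p) - 1 := by
        rw [h3]
        simp
    _ ≤ (1 + N * p) ^ m - 1 := by linarith

/-- Conditioning a distribution to an event of large probability. -/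
lemma cond {U : Type} [Fintype U] (ν : U → ℝ) (h0 : ∀ u, 0 ≤ ν u) (h1 : ∑ u, ν u = 1)
    (G : U → Prop) [DecidablePred G] (η : ℝ) (hη : ∑ u, ν u * (if G u then 0 else (1 : ℝ)) ≤ η)
    (hη1 : η < 1) : ∃ μ : U → ℝ, (∀ u, 0 ≤ μ u) ∧ ∑ u, μ u = 1 ∧ (∀ u, μ u ≠ 0 → G u) ∧
      ∀ f : U → ℝ, (∀ u, 0 ≤ f u) → (∀ u, f u ≤ 1) →
        |(∑ u, μ u * f u) - ∑ u, ν u * f u| ≤ η := by
  obtain ⟨θ, hθ⟩ : ∃ θ : ℝ, θ = ∑ u, ν u * (if G u then 0 else (1 : ℝ)) := ⟨_, rfl⟩
  rw [← hθ] at hη
  have hθ0 : 0 ≤ θ := by
    rw [hθ]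
    apply Finset.sum_nonneg
    intro u _
    apply mul_nonneg (h0 u)
    split_ifs <;> norm_num
  have hg : ∑ u, ν u * (if G u then (1 : ℝ) else 0) = 1 - θ := by
    rw [eq_sub_iff_add_eq, hθ, ← Finset.sum_add_distrib]
    refine Eq.trans ?_ h1
    apply Finset.sum_congr rfl
    intro u _
    split_ifs <;> ring
  have hpos : 0 < 1 - θ := by linarith
  refine ⟨fun u => ν u * (if G u then (1 : ℝ) else 0) / (1 - θ), ?_, ?_, ?_, ?_⟩
  · intro u
    apply div_nonneg _ hpos.le
    apply mul_nonneg (h0 u)
    split_ifs <;> norm_num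
  · rw [← Finset.sum_div, hg, div_self hpos.ne']
  · intro u hu
    by_contra hG
    apply hu
    simp [hG]
  · intro f hf0 hf1
    obtain ⟨A, hA⟩ : ∃ A : ℝ, A = ∑ u, ν u * (if G u then (1 : ℝ) else 0) * f u := ⟨_, rfl⟩
    obtain ⟨B, hB⟩ : ∃ B : ℝ, B = ∑ u, ν u * (if G u then (0 : ℝ) else 1) * f u := ⟨_, rfl⟩
    have hA0 : 0 ≤ A := by
      rw [hA]
      apply Finset.sum_nonneg
      intro u _
      apply mul_nonneg _ (hf0 u)
      apply mul_nonneg (h0 u)
      split_ifs <;> norm_num
    have hB0 : 0 ≤ B := by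
      rw [hB]
      apply Finset.sum_nonneg
      intro u _
      apply mul_nonneg _ (hf0 u)
      apply mul_nonneg (h0 u)
      split_ifs <;> norm_num
    have hA1 : A ≤ 1 - θ := by
      rw [hA, ← hg]
      apply Finset.sum_le_sum
      intro u _
      have : 0 ≤ ν u * (if G u then (1 : ℝ) else 0) := by
        apply mul_nonneg (h0 u)
        split_ifs <;> norm_num
      nlinarith [hf1 u]
    have hB1 : B ≤ θ := by
      rw [hB, hθ]
      apply Finset.sum_le_sum
      intro u _
      have : 0 ≤ ν u * (if G u then (0 : ℝ) else 1) := by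
        apply mul_nonneg (h0 u)
        split_ifs <;> norm_num
      nlinarith [hf1 u]
    have e1 : ∑ u, ν u * (if G u then (1 : ℝ) else 0) / (1 - θ) * f u = A / (1 - θ) := by
      rw [hA, Finset.sum_div]
      apply Finset.sum_congr rfl
      intro u _
      ring
    have e2 : ∑ u, ν u * f u = A + B := by
      rw [hA, hB, ← Finset.sum_add_distrib]
      apply Finset.sum_congr rfl
      intro u _
      split_ifs <;> ring
    rw [e1, e2]
    have e3 : A / (1 - θ) - (A + B) = A / (1 - θ) * θ - B := by
      field_simp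
      ring
    rw [e3]
    have h5 : A / (1 - θ) ≤ 1 := by rw [div_le_one hpos]; exact hA1
    have h6 : 0 ≤ A / (1 - θ) := div_nonneg hA0 hpos.le
    have h7 : A / (1 - θ) * θ ≤ θ := by nlinarith
    have h8 : 0 ≤ A / (1 - θ) * θ := mul_nonneg h6 hθ0
    rw [abs_le]
    constructor <;> linarith

end Pool.Agent.W964.Pram
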