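import Mathlib
import Pool.Agent.W964.Pram.CntForm
import Pool.Agent.W964.Pram.Uniq
import Pool.Agent.W964.Pram.CntDefs

/-!
The encoding of the constraint satisfaction problems as formulas with a shifted number of
satisfying assignments.
-/

set_option linter.unusedSectionVars false

namespace Pool.Agent.W964.Pram

open Finset H568R2 H592R3 SmallDepth

lemma numModels_eq {n M : ℕ} (x : Fin M × Fin n × Bool → Bool) :
    numModels x = cnt (fun c v b => x (c, v, b)) := by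
  unfold numModels cnt
  rw [← Nat.card_coe_set_eq]
  rfl

theorem enc_cnt (m r ℓ n' M a : ℕ) (hn' : 0 < n')
    (hM : (n' + 1) + (m * (2 ^ ℓ) ^ r + n') + (n' + 1) ≤ M) (he : m * ℓ ≤ n') (ha : a ≤ 2 ^ n')
    (s : Fin m → Fin r → Fin m) :
    ∃ σ : ((Fin m × (Fin r → Fin (2 ^ ℓ))) → Bool) → (Fin M × Fin (n' + 1) × Bool → Bool),
      (∀ j, Junta 1 (fun x => σ x j)) ∧ (∀ X, AllOccur (σ X)) ∧
      (∀ X, numModels (σ X) = a + (Sols s X).ncard) := by
  classical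
  obtain ⟨e⟩ : Nonempty ((Fin m × Fin ℓ) ↪ Fin n') := by
    apply Function.Embedding.nonempty_of_card_le
    rw [Fintype.card_prod, Fintype.card_fin, Fintype.card_fin, Fintype.card_fin]
    exact he
  obtain ⟨dec⟩ : Nonempty ((Fin ℓ → Bool) ≃ Fin (2 ^ ℓ)) :=
    ⟨Fintype.equivFinOfCardEq (by simp)⟩
  obtain ⟨ι, hι, hcard, x₁, hx₁⟩ := exists_count n' a ha
  obtain ⟨M₂, hM₂⟩ : ∃ M₂, M₂ = Fintype.card ((Fin m × (Fin r → Fin (2 ^ ℓ))) ⊕ Fin n') :=
    ⟨_, rfl⟩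
  obtain ⟨ϕ⟩ : Nonempty (Fin M₂ ≃ (Fin m × (Fin r → Fin (2 ^ ℓ))) ⊕ Fin n') :=
    ⟨(Fintype.equivFinOfCardEq hM₂.symm).symm⟩
  obtain ⟨x₂, hx₂⟩ : ∃ x₂ : ((Fin m × (Fin r → Fin (2 ^ ℓ))) → Bool) →
      (Fin M₂ → Fin n' → Bool → Bool), x₂ = fun X c v b =>
        cnfOf s e dec ⟨0, hn'⟩ ϕ X (c, v, b) := ⟨_, rfl⟩
  obtain ⟨π, hπ⟩ : ∃ π : Fin M → (ι ⊕ Fin M₂) ⊕ Fin (n' + 1), Function.Surjective π := by
    have : Nonempty ((ι ⊕ Fin M₂) ⊕ Fin (n' + 1)) := ⟨Sum.inr 0⟩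
    obtain ⟨g⟩ : Nonempty (((ι ⊕ Fin M₂) ⊕ Fin (n' + 1)) ↪ Fin M) := by
      apply Function.Embedding.nonempty_of_card_le
      rw [Fintype.card_sum, Fintype.card_sum, Fintype.card_fin, Fintype.card_fin,
        Fintype.card_fin, hM₂, Fintype.card_sum, Fintype.card_prod, Fintype.card_fun,
        Fintype.card_fin, Fintype.card_fin, Fintype.card_fin, Fintype.card_fin]
      omega
    exact ⟨Function.invFun g, Function.invFun_surjective g.injective⟩
  refine ⟨fun X c => glue x₁ (x₂ X) (π c.1) c.2.1 c.2.2, ?_, ?_, ?_⟩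
  · rintro ⟨c, v, b⟩
    show Junta 1 (fun X => glue x₁ (x₂ X) (π c) v b)
    rcases h : π c with (c1 | c2) | u
    · exact ⟨∅, by simp, fun X Y _ => rfl⟩
    · refine Fin.cases ?_ (fun v' => ?_) v
      · exact ⟨∅, by simp, fun X Y _ => rfl⟩
      · have h1 := cnfOf_junta s e dec ⟨0, hn'⟩ ϕ (c2, v', b)
        have h2 : (fun X => glue x₁ (x₂ X) (Sum.inl (Sum.inr c2)) (Fin.succ v') b) =
            (fun X => cnfOf s e dec ⟨0, hn'⟩ ϕ X (c2, v', b)) := by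
          funext X
          rw [hx₂]
          rfl
        rw [h2]
        exact h1
    · exact ⟨∅, by simp, fun X Y _ => rfl⟩
  · intro X v
    obtain ⟨c, hc⟩ := hπ (Sum.inr v)
    refine ⟨c, true, ?_⟩
    show glue x₁ (x₂ X) (π c) v true = true
    rw [hc]
    simp [glue]
  · intro X
    rw [numModels_eq]
    show cnt (fun c => glue x₁ (x₂ X) (π c)) = _
    rw [cnt_surj _ π hπ, cnt_glue, hx₁, hx₂]
    congr 1
    exact cnt_csp ϕ.surjective X

end Pool.Agent.W964.Pram
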