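import Mathlib

/-!
Arithmetic for the hardness of counting.
-/

namespace Pool.Agent.W964.Pram

/-- Auxiliary arithmetic. -/
lemma cnt_arith (n w t : ℕ) (A C ε : ℝ) (hA : 1 ≤ A) (hε : ε ≤ 1 / 2)
    (hC : 128 * A ≤ C) (hn : 2 ≤ n)
    (hw : C * Real.log n ≤ w) (hwn : w ≤ n) (hwt : (w : ℝ) ≤ 8 * A * t + 1) (m : ℕ) (hm : m ≤ n)
    (n' : ℕ) (hn' : n = n' + 1) :
    3 / (2 : ℝ) ^ t + (2 : ℝ) ^ (-((1 - ε) * n' / 2)) + m * (1 / 2 ^ t) ≤
      (2 : ℝ) ^ (-((w : ℝ) / C)) / 2 ∧ (n : ℝ) ≤ 2 ^ t := by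
  have hnR : (2 : ℝ) ≤ n := by exact_mod_cast hn
  have hl2 : (1 : ℝ) / 2 ≤ Real.log 2 := by
    have := Real.log_two_gt_d9
    linarith
  have hlogn : 1 / 2 ≤ Real.log n := hl2.trans (Real.log_le_log (by norm_num) hnR)
  have hC0 : 0 < C := by linarith
  have hw32 : (64 : ℝ) ≤ w := by
    have h1 : 128 * (1 / 2) ≤ C * Real.log n :=
      mul_le_mul (by linarith) hlogn (by norm_num) hC0.le
    linarith
  have hnw : (w : ℝ) ≤ n := by exact_mod_cast hwn
  have hn'R : (n' : ℝ) = n - 1 := by rw [hn']; push_cast; ring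
  -- `t` is large
  have ht1 : (w : ℝ) / (16 * A) ≤ t := by
    rw [div_le_iff₀ (by positivity)]
    have : (1 : ℝ) ≤ w / 2 := by linarith
    have h2 : (w : ℝ) / 2 ≤ 8 * A * t := by linarith
    linarith
  have ht2 : 8 * Real.log n ≤ t := by
    refine le_trans ?_ ht1
    rw [le_div_iff₀ (by positivity)]
    calc 8 * Real.log n * (16 * A) = 128 * A * Real.log n := by ring
      _ ≤ C * Real.log n := mul_le_mul_of_nonneg_right hC (by linarith)
      _ ≤ w := hw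
  have hn32 : (64 : ℝ) ≤ n := by linarith
  have ht0 : (0 : ℝ) ≤ t := Nat.cast_nonneg t
  have h4 : 4 * ((n : ℝ) + 3) ≤ 2 ^ ((t : ℝ) / 2) := by
    have h5 : 4 * ((n : ℝ) + 3) ≤ (n : ℝ) ^ (2 : ℝ) := by
      rw [show (2 : ℝ) = ((2 : ℕ) : ℝ) by norm_num, Real.rpow_natCast]
      nlinarith
    refine h5.trans ?_
    rw [Real.rpow_def_of_pos (by linarith),
      Real.rpow_def_of_pos (by norm_num : (0 : ℝ) < 2)]
    apply Real.exp_le_exp.2
    have h6 : (1 / 2 : ℝ) * (t / 2) ≤ Real.log 2 * (t / 2) :=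
      mul_le_mul_of_nonneg_right hl2 (by linarith)
    linarith
  have h7 : (2 : ℝ) ^ t = 2 ^ ((t : ℝ) / 2) * 2 ^ ((t : ℝ) / 2) := by
    rw [← Real.rpow_add (by norm_num), add_halves, Real.rpow_natCast]
  have h8 : (0 : ℝ) < 2 ^ ((t : ℝ) / 2) := by positivity
  have h9 : (1 : ℝ) ≤ 2 ^ ((t : ℝ) / 2) := Real.one_le_rpow (by norm_num) (by linarith)
  have h10 : (2 : ℝ) ^ ((w : ℝ) / C) ≤ 2 ^ ((t : ℝ) / 2) := by
    apply Real.rpow_le_rpow_of_exponent_le (by norm_num)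
    have h11 : (w : ℝ) / C ≤ w / (128 * A) :=
      div_le_div_of_nonneg_left (by linarith) (by positivity) hC
    have h12 : (w : ℝ) / (128 * A) = (w / (16 * A)) / 8 := by
      field_simp
      norm_num
    rw [h12] at h11
    linarith
  have h13 : (2 : ℝ) ^ (-((w : ℝ) / C)) = 1 / 2 ^ ((w : ℝ) / C) := by
    rw [Real.rpow_neg (by norm_num), one_div]
  have h14 : (0 : ℝ) < 2 ^ ((w : ℝ) / C) := by positivity
  have hmR : (m : ℝ) ≤ n := by exact_mod_cast hm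
  constructor
  · have h15 : 3 / (2 : ℝ) ^ t + m * (1 / 2 ^ t) ≤ (1 / 4) * (1 / 2 ^ ((w : ℝ) / C)) := by
      have h16 : 3 / (2 : ℝ) ^ t + m * (1 / 2 ^ t) = (m + 3) / 2 ^ t := by ring
      have h17 : 1 / (2 : ℝ) ^ ((t : ℝ) / 2) ≤ 1 / 2 ^ ((w : ℝ) / C) :=
        one_div_le_one_div_of_le h14 h10
      rw [h16]
      calc ((m : ℝ) + 3) / 2 ^ t ≤ (2 ^ ((t : ℝ) / 2) / 4) / 2 ^ t := by
            gcongr
            linarith
        _ = (1 / 4) * (1 / 2 ^ ((t : ℝ) / 2)) := by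
            rw [h7]
            field_simp
        _ ≤ (1 / 4) * (1 / 2 ^ ((w : ℝ) / C)) := by linarith
    have h18 : (2 : ℝ) ^ (-((1 - ε) * n' / 2)) ≤ (1 / 4) * (1 / 2 ^ ((w : ℝ) / C)) := by
      rw [← h13]
      have h19 : (1 / 4 : ℝ) = 2 ^ (-2 : ℝ) := by
        rw [Real.rpow_neg (by norm_num)]
        norm_num
      rw [h19, ← Real.rpow_add (by norm_num)]
      apply Real.rpow_le_rpow_of_exponent_le (by norm_num)
      have h20 : (w : ℝ) / C ≤ n / 128 := by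
        calc (w : ℝ) / C ≤ w / (128 * A) :=
              div_le_div_of_nonneg_left (by linarith) (by positivity) hC
          _ ≤ w / (128 * 1) := by gcongr
          _ ≤ n / 128 := by linarith
      have h21 : (1 / 2 : ℝ) * n' ≤ (1 - ε) * n' :=
        mul_le_mul_of_nonneg_right (by linarith) (Nat.cast_nonneg _)
      rw [hn'R] at h21 ⊢
      linarith
    rw [h13]
    linarith
  · rw [h7]
    nlinarith

/-- `(1 + x) ^ m - 1 ≤ 2 m x`. -/
lemma pow_sub_one_le (m : ℕ) (x : ℝ) (hx : 0 ≤ x) (h : m * x ≤ 1) :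
    (1 + x) ^ m - 1 ≤ 2 * (m * x) := by
  have h1 : (1 + x) ^ m ≤ Real.exp (m * x) := by
    rw [Real.exp_nat_mul]
    apply pow_le_pow_left₀ (by linarith)
    have := Real.add_one_le_exp x
    linarith
  have h0 : 0 ≤ (m : ℝ) * x := by positivity
  have h2 := Real.abs_exp_sub_one_le (x := m * x) (by rw [abs_of_nonneg h0]; exact h)
  rw [abs_of_nonneg h0] at h2
  have h3 := le_abs_self (Real.exp (m * x) - 1)
  linarith

end Pool.Agent.W964.Pram
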