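import Mathlib
import Pool.Agent.W964.Pram.Hard
import Pool.Agent.W964.Pram.RandMachine
import Pool.Agent.W964.Pram.CntEnc
import Pool.Agent.W964.Pram.CntArith

/-!
Formulas with `a` and with `a + 1` satisfying assignments are hard to distinguish for parallel
machines.
-/

set_option linter.unusedSectionVars false

namespace Pool.Agent.W964.Pram

open Finset H568R2 H592R3 SmallDepth

open Classical in
theorem cnt_pram (ε : ℝ) (hε : 0 < ε) (Kc : ℕ) : ∃ C : ℝ, 0 < C ∧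
    ∀ n T w M a : ℕ, 2 ≤ n → 1 ≤ T → C * (T * Real.log n) ≤ w → w ≤ n → n * 2 ^ w ≤ M →
    a < 2 ^ (n - 1) →
    ∃ ν₀ ν₁ : ((Fin M × Fin n × Bool) → Bool) → ℝ,
      ((∀ x, 0 ≤ ν₀ x) ∧ ∑ x, ν₀ x = 1) ∧ ((∀ x, 0 ≤ ν₁ x) ∧ ∑ x, ν₁ x = 1) ∧
      (∀ x, ν₀ x ≠ 0 → AllOccur x ∧ numModels x = a) ∧
      (∀ x, ν₁ x ≠ 0 → AllOccur x ∧ numModels x = a + 1) ∧
      ∀ (P : ℕ) (A : Machine (Fin M × Fin n × Bool) P), (P : ℝ) ≤ 2 ^ ((1 - ε) * n) →
        A.Lists (2 ^ (Kc * n)) →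
        |(∑ x, ν₀ x * (if A.answer T x = true then 1 else 0)) -
          ∑ x, ν₁ x * (if A.answer T x = true then 1 else 0)| ≤ (2 : ℝ) ^ (-((w : ℝ) / C)) := by
  obtain ⟨ε', hε'⟩ : ∃ ε' : ℝ, ε' = min (ε / 2) (1 / 2) := ⟨_, rfl⟩
  have hε'0 : 0 < ε' := by rw [hε']; exact lt_min (by positivity) (by norm_num)
  have hε'1 : ε' ≤ 1 / 2 := by rw [hε']; exact min_le_right _ _
  have hε'2 : ε' ≤ ε / 2 := by rw [hε']; exact min_le_left _ _
  obtain ⟨Q, hQ6, _, C', hC', hpar⟩ := pram_hard ε' hε'0 hε'1 (2 * Kc)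
  obtain ⟨A₀, hA₀⟩ : ∃ A₀ : ℝ, A₀ = ((ar Q : ℕ) : ℝ) := ⟨_, rfl⟩
  have hA₀1 : 1 ≤ A₀ := by
    rw [hA₀]
    have : 1 ≤ ar Q := by unfold ar; omega
    exact_mod_cast this
  obtain ⟨C, hC⟩ : ∃ C : ℝ, C = C' + 128 * A₀ + 4 / ε + 4 := ⟨_, rfl⟩
  have h4ε : 0 < 4 / ε := by positivity
  have hC0 : 0 < C := by rw [hC]; positivity
  have hCA : 128 * A₀ ≤ C := by rw [hC]; linarith
  refine ⟨C, hC0, ?_⟩
  intro n T w M a hn hT hw hwn hM ha
  have hnR : (2 : ℝ) ≤ n := by exact_mod_cast hn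
  have hl2 : (1 : ℝ) / 2 ≤ Real.log 2 := by
    have := Real.log_two_gt_d9
    linarith
  have hlogn : 1 / 2 ≤ Real.log n := hl2.trans (Real.log_le_log (by norm_num) hnR)
  have hTR : (1 : ℝ) ≤ T := by exact_mod_cast hT
  have hTl : 1 / 2 ≤ (T : ℝ) * Real.log n := by
    have h1 : 1 * (1 / 2) ≤ (T : ℝ) * Real.log n :=
      mul_le_mul hTR hlogn (by norm_num) (by linarith)
    linarith
  have hnw : (w : ℝ) ≤ n := by exact_mod_cast hwn
  have hw64 : (64 : ℝ) ≤ w := by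
    have h1 : 128 * (1 / 2) ≤ C * (T * Real.log n) :=
      mul_le_mul (by linarith) hTl (by norm_num) hC0.le
    linarith
  have hw64' : 64 ≤ w := by exact_mod_cast hw64
  have hnε : 2 / ε ≤ n := by
    have h1 : (4 / ε) * (1 / 2) ≤ C * (T * Real.log n) :=
      mul_le_mul (by rw [hC]; linarith) hTl (by norm_num) hC0.le
    have h2 : (4 / ε) * (1 / 2) = 2 / ε := by ring
    linarith
  obtain ⟨n', hn'⟩ : ∃ n', n = n' + 1 := ⟨n - 1, by omega⟩
  subst hn'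
  have hn'R : ((n' + 1 : ℕ) : ℝ) = (n' : ℝ) + 1 := by push_cast; ring
  obtain ⟨w', hw'⟩ : ∃ w', w = w' + 1 := ⟨w - 1, by omega⟩
  have hw'R : (w : ℝ) = w' + 1 := by rw [hw']; push_cast; ring
  have hn'2 : 2 ≤ n' := by omega
  have hlogn' : Real.log n' ≤ Real.log (n' + 1 : ℕ) := by
    apply Real.log_le_log
    · have : (2 : ℝ) ≤ n' := by exact_mod_cast hn'2
      linarith
    · push_cast; linarith
  obtain ⟨b, m', hb, hm', hB2, hBw, hQn, hexp, hwb, s, hs, hMach⟩ := hpar n' T w' hn'2 hT (by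
    have h1 : C' * (T * Real.log n') ≤ C' * (T * Real.log (n' + 1 : ℕ)) := by gcongr
    have h2 : (C' + 2) * (T * Real.log (n' + 1 : ℕ)) ≤ C * (T * Real.log (n' + 1 : ℕ)) := by
      apply mul_le_mul_of_nonneg_right _ (by linarith)
      rw [hC]; linarith
    have h3 : 1 ≤ 2 * ((T : ℝ) * Real.log (n' + 1 : ℕ)) := by linarith
    linarith) (by omega)
  obtain ⟨t, ht⟩ : ∃ t, t = 3 * T * b := ⟨_, rfl⟩
  have hQm : Q * m' * 2 ≤ n' := by
    refine le_trans ?_ hQn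
    apply Nat.mul_le_mul_left
    have : 1 ≤ T * b := Nat.one_le_iff_ne_zero.2 (by positivity)
    have h2 : 2 * (3 * T) * b = 6 * (T * b) := by ring
    omega
  have hcardM : (n' + 1) + (Q * m' * (2 ^ (2 * (3 * T) * b)) ^ (ar Q) + n') + (n' + 1) ≤ M := by
    refine le_trans ?_ hM
    have h1 : (2 ^ (2 * (3 * T) * b)) ^ (ar Q) ≤ 2 ^ w' := by
      rw [← pow_mul]
      apply Nat.pow_le_pow_right (by norm_num)
      rw [mul_comm]; omega
    have h2 : Q * m' * (2 ^ (2 * (3 * T) * b)) ^ (ar Q) ≤ n' * 2 ^ w' :=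
      Nat.mul_le_mul (by omega) h1
    have h3 : (n' + 1) * 2 ^ w = (n' + 1) * 2 ^ w' + (n' + 1) * 2 ^ w' := by
      rw [hw', pow_succ]; ring
    have h4 : 4 ≤ 2 ^ w' := by
      calc 4 = 2 ^ 2 := by norm_num
        _ ≤ 2 ^ w' := Nat.pow_le_pow_right (by norm_num) (by omega)
    have h5 : (n' + 1) * 4 ≤ (n' + 1) * 2 ^ w' := Nat.mul_le_mul_left _ h4
    have h6 : n' * 2 ^ w' ≤ (n' + 1) * 2 ^ w' := Nat.mul_le_mul_right _ (by omega)
    omega
  have he : Q * m' * (2 * (3 * T) * b) ≤ n' := by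
    refine le_trans ?_ hQn
    exact Nat.mul_le_mul_left _ (by omega)
  obtain ⟨σ, hσ, hσo, hσs⟩ := enc_cnt (Q * m') (ar Q) (2 * (3 * T) * b) n' M a (by omega) hcardM
    he (by rw [Nat.add_sub_cancel] at ha; exact ha.le) s
  obtain ⟨p, hp⟩ : ∃ p : ℝ, p = dens T b := ⟨_, rfl⟩
  have hp0 : 0 ≤ p := by rw [hp]; unfold dens; positivity
  have hp1 : p ≤ 1 := by
    have h1 : (1 : ℝ) ≤ ((2 : ℝ) ^ (3 * T * b)) ^ 3 := one_le_pow₀ (one_le_pow₀ (by norm_num))
    have h2 : 1 / ((2 : ℝ) ^ (3 * T * b)) ^ 3 ≤ 1 := by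
      rw [div_le_one (by positivity)]; exact h1
    rw [hp]
    unfold dens
    linarith
  rw [← hp] at hMach
  have hμ : ∀ X : Vr Q T b m' → Bool,
      0 ≤ ∏ i, vp p (X i) := fun X => Finset.prod_nonneg fun i _ => vp_nonneg hp0 hp1 _
  have hμ1 : ∑ X : Vr Q T b m' → Bool, ∏ i, vp p (X i) = 1 := by
    have := Ex_const (I := Vr Q T b m') (vp_sum p) (1 : ℝ)
    unfold Ex at this
    simpa using this
  have hNp : (0 : ℝ) < (((dom T b : ℕ) : ℝ)) ^ (Q * m') := by unfold dom; positivity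
  -- arithmetic
  have har := cnt_arith (n' + 1) w t A₀ C ε' hA₀1 hε'1 hCA hn
    (le_trans (by
      have : 1 * Real.log (n' + 1 : ℕ) ≤ T * Real.log (n' + 1 : ℕ) :=
        mul_le_mul_of_nonneg_right hTR (by linarith)
      rw [one_mul] at this
      exact mul_le_mul_of_nonneg_left this hC0.le) hw) hwn (by
      rw [hw'R, hA₀, ht]
      have : ((w' : ℕ) : ℝ) ≤ ((8 * ar Q * (3 * T * b) : ℕ) : ℝ) := by exact_mod_cast hwb
      push_cast at this ⊢
      linarith) (Q * m') (by omega) n' rfl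
  obtain ⟨har1, har2⟩ := har
  -- the distributions before conditioning
  obtain ⟨ν₀, hν₀⟩ : ∃ ν₀ : ((Fin M × Fin (n' + 1) × Bool) → Bool) → ℝ,
    ν₀ = push (fun X : Vr Q T b m' → Bool => ∏ i, vp p (X i)) σ := ⟨_, rfl⟩
  obtain ⟨ν₁, hν₁⟩ : ∃ ν₁ : ((Fin M × Fin (n' + 1) × Bool) → Bool) → ℝ,
    ν₁ = push (fun Xa : (Vr Q T b m' → Bool) × (Fin (Q * m') → Fin (dom T b)) =>
      (∏ i, vp p (Xa.1 i)) * (1 / (((dom T b : ℕ) : ℝ)) ^ (Q * m')))
      (fun Xa => σ (plant (vr s Xa.2) univ Xa.1)) := ⟨_, rfl⟩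
  have hν₀n : ∀ x, 0 ≤ ν₀ x := by rw [hν₀]; exact push_nonneg _ _ hμ
  have hν₁n : ∀ x, 0 ≤ ν₁ x := by
    rw [hν₁]; exact push_nonneg _ _ (fun Xa => mul_nonneg (hμ _) (by positivity))
  have hν₀t : ∑ x, ν₀ x = 1 := by rw [hν₀, push_total, hμ1]
  have hcard : ∑ _a : Fin (Q * m') → Fin (dom T b),
      (1 / (((dom T b : ℕ) : ℝ)) ^ (Q * m')) = 1 := by
    rw [Finset.sum_const, Finset.card_univ, Fintype.card_fun, Fintype.card_fin, Fintype.card_fin,
      nsmul_eq_mul, Nat.cast_pow]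
    field_simp
  have hν₁t : ∑ x, ν₁ x = 1 := by
    rw [hν₁, push_total, Fintype.sum_prod_type]
    dsimp only
    simp_rw [← Finset.mul_sum, hcard, mul_one]
    exact hμ1
  have hunsat : ∀ X, ¬ Sat s X → numModels (σ X) = a := by
    intro X hX
    rw [hσs, sols_empty hX, add_zero]
  -- failure of the first distribution
  have hη₀ : ∑ x, ν₀ x * (if AllOccur x ∧ numModels x = a then 0 else (1 : ℝ)) ≤
      (2 : ℝ) ^ (-((1 - ε') * n' / 2)) := by
    rw [hν₀, push_sum _ σ (fun x => if AllOccur x ∧ numModels x = a then 0 else (1 : ℝ))]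
    have h1 := sat_prob (N := dom T b) s hp0 hp1
    have h2 := sat_arith Q (3 * T) b m' n' ε' hexp
    have h2' : (((dom T b : ℕ) : ℝ)) ^ (Q * m') * p ^ (Q * m') ≤
        2 ^ (-((1 - ε') * n' / 2)) := by rw [hp]; exact h2
    refine le_trans ?_ (h1.trans h2')
    unfold Ex
    refine Finset.sum_le_sum fun X _ => ?_
    apply mul_le_mul_of_nonneg_left _ (hμ X)
    beta_reduce
    by_cases hX : Sat s X
    · rw [if_pos hX]
      split_ifs <;> norm_num
    · rw [if_neg hX, if_pos ⟨hσo X, hunsat X hX⟩]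
  -- failure of the second distribution
  have hη₁ : ∑ x, ν₁ x * (if AllOccur x ∧ numModels x = a + 1 then 0 else (1 : ℝ)) ≤
      ((Q * m' : ℕ) : ℝ) * (1 / 2 ^ t) := by
    rw [hν₁, push_sum _ _ (fun x => if AllOccur x ∧ numModels x = a + 1 then 0 else (1 : ℝ)),
      Fintype.sum_prod_type, Finset.sum_comm]
    have h0 : ∀ α : Fin (Q * m') → Fin (dom T b), ∑ X : Vr Q T b m' → Bool,
        (∏ i, vp p (X i)) * (1 / (((dom T b : ℕ) : ℝ)) ^ (Q * m')) *
          (if AllOccur (σ (plant (vr s α) univ X)) ∧ numModels (σ (plant (vr s α) univ X)) = a + 1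
            then 0 else (1 : ℝ)) ≤
        (1 / (((dom T b : ℕ) : ℝ)) ^ (Q * m')) * (((Q * m' : ℕ) : ℝ) * (1 / 2 ^ t)) := by
      intro α
      have h1 := other_prob (r := 2 * Q ^ 2 + 14) s hs hp0 hp1 α
      have hx : (((dom T b : ℕ) : ℝ)) * p ≤ 1 / 2 ^ t / 2 := by
        rw [hp, ht]
        have h3 : (0 : ℝ) < 2 ^ (3 * T * b) := by positivity
        have h4 : (((dom T b : ℕ) : ℝ)) = ((2 : ℝ) ^ (3 * T * b)) ^ 2 := by
          unfold dom
          push_cast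
          rw [← pow_mul]; congr 1; ring
        rw [h4]
        unfold dens
        apply le_of_eq
        field_simp
      have hx0 : 0 ≤ (((dom T b : ℕ) : ℝ)) * p := by positivity
      have hmt : ((Q * m' : ℕ) : ℝ) ≤ 2 ^ t := by
        refine le_trans ?_ har2
        have : Q * m' ≤ n' + 1 := by omega
        exact_mod_cast this
      have hmx : ((Q * m' : ℕ) : ℝ) * ((((dom T b : ℕ) : ℝ)) * p) ≤ 1 := by
        calc ((Q * m' : ℕ) : ℝ) * ((((dom T b : ℕ) : ℝ)) * p)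
            ≤ 2 ^ t * (1 / 2 ^ t / 2) := by gcongr
          _ = 1 / 2 := by field_simp
          _ ≤ 1 := by norm_num
      have h2 := pow_sub_one_le (Q * m') ((((dom T b : ℕ) : ℝ)) * p) hx0 hmx
      have h3 : 2 * (((Q * m' : ℕ) : ℝ) * ((((dom T b : ℕ) : ℝ)) * p)) ≤
          ((Q * m' : ℕ) : ℝ) * (1 / 2 ^ t) := by
        calc 2 * (((Q * m' : ℕ) : ℝ) * ((((dom T b : ℕ) : ℝ)) * p))
            ≤ 2 * (((Q * m' : ℕ) : ℝ) * (1 / 2 ^ t / 2)) := by gcongr
          _ = _ := by ring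
      have h4 : ∑ X : Vr Q T b m' → Bool, (∏ i, vp p (X i)) *
          (if (Sols s (plant (vr s α) univ X)).ncard ≠ 1 then (1 : ℝ) else 0) ≤
          ((Q * m' : ℕ) : ℝ) * (1 / 2 ^ t) := by
        unfold Ex at h1
        exact (h1.trans h2).trans h3
      refine le_trans ?_ (mul_le_mul_of_nonneg_left h4 (by positivity))
      rw [Finset.mul_sum]
      refine Finset.sum_le_sum fun X _ => ?_
      have h5 : (if AllOccur (σ (plant (vr s α) univ X)) ∧
          numModels (σ (plant (vr s α) univ X)) = a + 1 then 0 else (1 : ℝ)) ≤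
          (if (Sols s (plant (vr s α) univ X)).ncard ≠ 1 then (1 : ℝ) else 0) := by
        by_cases h6 : (Sols s (plant (vr s α) univ X)).ncard ≠ 1
        · rw [if_pos h6]
          split_ifs <;> norm_num
        · push Not at h6
          rw [if_pos]
          · split_ifs <;> norm_num
          · refine ⟨hσo _, ?_⟩
            rw [hσs, h6]
      calc (∏ i, vp p (X i)) * (1 / (((dom T b : ℕ) : ℝ)) ^ (Q * m')) * _
          ≤ (∏ i, vp p (X i)) * (1 / (((dom T b : ℕ) : ℝ)) ^ (Q * m')) *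
            (if (Sols s (plant (vr s α) univ X)).ncard ≠ 1 then (1 : ℝ) else 0) :=
            mul_le_mul_of_nonneg_left h5 (mul_nonneg (hμ X) (by positivity))
        _ = _ := by ring
    refine (Finset.sum_le_sum fun α _ => h0 α).trans (le_of_eq ?_)
    rw [← Finset.sum_mul, hcard, one_mul]
  -- the bound for the failures
  have hpos : (0 : ℝ) < 3 / 2 ^ t := by positivity
  have hw0 : (2 : ℝ) ^ (-((w : ℝ) / C)) ≤ 1 := by
    apply Real.rpow_le_one_of_one_le_of_nonpos (by norm_num)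
    have : 0 ≤ (w : ℝ) / C := by positivity
    linarith
  have hη₀0 : (0 : ℝ) < (2 : ℝ) ^ (-((1 - ε') * n' / 2)) := by positivity
  have hη₁0 : (0 : ℝ) ≤ ((Q * m' : ℕ) : ℝ) * (1 / 2 ^ t) := by positivity
  obtain ⟨μ₀, hμ₀n, hμ₀t, hμ₀s, hμ₀c⟩ := cond ν₀ hν₀n hν₀t
    (fun x => AllOccur x ∧ numModels x = a) _ hη₀ (by linarith)
  obtain ⟨μ₁, hμ₁n, hμ₁t, hμ₁s, hμ₁c⟩ := cond ν₁ hν₁n hν₁t
    (fun x => AllOccur x ∧ numModels x = a + 1) _ hη₁ (by linarith)
  refine ⟨μ₀, μ₁, ⟨hμ₀n, hμ₀t⟩, ⟨hμ₁n, hμ₁t⟩, hμ₀s, hμ₁s, ?_⟩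
  intro P A hP hKl
  have hPle : (P : ℝ) ≤ 2 ^ ((1 - ε') * n') := by
    refine hP.trans ?_
    apply Real.rpow_le_rpow_of_exponent_le (by norm_num)
    have h1 : 2 ≤ ε * ((n' + 1 : ℕ) : ℝ) := by
      rw [div_le_iff₀ hε] at hnε
      linarith
    rw [hn'R] at h1 ⊢
    have h2 : (1 - ε / 2) * (n' : ℝ) ≤ (1 - ε') * n' :=
      mul_le_mul_of_nonneg_right (by linarith) (Nat.cast_nonneg _)
    linarith
  have hKle : ∀ q, (A.query q).length ≤ 2 ^ (2 * Kc * n') := by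
    intro q
    refine (hKl q).trans (Nat.pow_le_pow_right (by norm_num) ?_)
    calc Kc * (n' + 1) ≤ Kc * (2 * n') := Nat.mul_le_mul_left _ (by omega)
      _ = 2 * Kc * n' := by ring
  have hmain := hMach (Fin M × Fin (n' + 1) × Bool) σ hσ P A hPle hKle
  rw [← push_sum _ σ (fun u => if A.answer T u = true then (1 : ℝ) else 0),
    ← push_sum _ (fun Xa : (Vr Q T b m' → Bool) × (Fin (Q * m') → Fin (dom T b)) =>
      σ (plant (vr s Xa.2) univ Xa.1)) (fun u => if A.answer T u = true then (1 : ℝ) else 0),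
    ← hν₀, ← hν₁, ← ht] at hmain
  have hf0 : ∀ u, (0 : ℝ) ≤ (if A.answer T u = true then (1 : ℝ) else 0) := by
    intro u
    split_ifs <;> norm_num
  have hf1 : ∀ u, (if A.answer T u = true then (1 : ℝ) else 0) ≤ 1 := by
    intro u
    split_ifs <;> norm_num
  have h1 := hμ₀c (fun u => if A.answer T u = true then (1 : ℝ) else 0) hf0 hf1
  have h2 := hμ₁c (fun u => if A.answer T u = true then (1 : ℝ) else 0) hf0 hf1
  have hw1 : (0 : ℝ) < (2 : ℝ) ^ (-((w : ℝ) / C)) := by positivity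
  rw [abs_le] at h1 h2 hmain ⊢
  constructor <;> linarith

end Pool.Agent.W964.Pram
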