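import Mathlib
import Pool.Agent.W964.Pram.CntHard

/-!
Predicates of the number of satisfying assignments and parallel machines.
-/

set_option linter.unusedSectionVars false

namespace Pool.Agent.W964.Pram

open Finset SmallDepth Filter

open Classical in
/-- The average-case statement. -/
theorem cnt_average (ε : ℝ) (hε : 0 < ε) (Kc : ℕ) : ∃ C : ℝ, 0 < C ∧
    ∀ n T w M a : ℕ, 2 ≤ n → 1 ≤ T → C * (T * Real.log n) ≤ w → w ≤ n → n * 2 ^ w ≤ M →
    a < 2 ^ (n - 1) →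
    ∃ ν₀ ν₁ : ((Fin M × Fin n × Bool) → Bool) → ℝ,
      ((∀ x, 0 ≤ ν₀ x) ∧ ∑ x, ν₀ x = 1) ∧ ((∀ x, 0 ≤ ν₁ x) ∧ ∑ x, ν₁ x = 1) ∧
      (∀ x, ν₀ x ≠ 0 → AllOccur x ∧ numModels x = a) ∧
      (∀ x, ν₁ x ≠ 0 → AllOccur x ∧ numModels x = a + 1) ∧
      ∀ (P : ℕ) (A : Machine (Fin M × Fin n × Bool) P), (P : ℝ) ≤ 2 ^ ((1 - ε) * n) →
        A.Lists (2 ^ (Kc * n)) →
        |(∑ x, ν₀ x * (if A.answer T x = true then 1 else 0)) -
          ∑ x, ν₁ x * (if A.answer T x = true then 1 else 0)| ≤ (2 : ℝ) ^ (-((w : ℝ) / C)) ∧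
        ∀ F : ℕ → Prop, ¬ (F a ↔ F (a + 1)) →
          ∑ x, (ν₀ x + ν₁ x) / 2 *
            (if (A.answer T x = true ↔ F (numModels x)) then 1 else 0) ≤
            1 / 2 + (2 : ℝ) ^ (-((w : ℝ) / C)) := by
  obtain ⟨C, hC, H⟩ := cnt_pram ε hε Kc
  refine ⟨C, hC, ?_⟩
  intro n T w M a hn hT hw hwn hM ha
  obtain ⟨ν₀, ν₁, h0, h1, hs0, hs1, hK⟩ := H n T w M a hn hT hw hwn hM ha
  refine ⟨ν₀, ν₁, h0, h1, hs0, hs1, ?_⟩
  intro P A hP hKl
  have hadv := hK P A hP hKl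
  have hpos : (0 : ℝ) < (2 : ℝ) ^ (-((w : ℝ) / C)) := by positivity
  refine ⟨hadv, ?_⟩
  intro F hF
  by_cases hFa : F a
  · have hFa1 : ¬ F (a + 1) := fun h => hF ⟨fun _ => h, fun _ => hFa⟩
    have hη : (∑ x, ν₁ x * (if F (numModels x) then (1 : ℝ) else 0)) ≤ 0 := by
      apply le_of_eq
      apply Finset.sum_eq_zero
      intro x _
      by_cases hx : ν₁ x = 0
      · rw [hx, zero_mul]
      · rw [(hs1 x hx).2, if_neg hFa1, mul_zero]
    have hadv' := hadv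
    rw [abs_sub_comm] at hadv'
    have h2 := decide_le ν₁ ν₀ (fun x => F (numModels x)) (A.answer T) h1.1 h1.2
      (fun x hx => by rw [(hs0 x hx).2]; exact hFa) _ _ hη hadv'
    refine le_trans (le_of_eq ?_) (h2.trans (by linarith))
    exact Finset.sum_congr rfl fun x _ => by rw [add_comm (ν₀ x)]
  · have hFa1 : F (a + 1) := by
      by_contra h
      exact hF ⟨fun h' => absurd h' hFa, fun h' => absurd h' h⟩
    have hη : (∑ x, ν₀ x * (if F (numModels x) then (1 : ℝ) else 0)) ≤ 0 := by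
      apply le_of_eq
      apply Finset.sum_eq_zero
      intro x _
      by_cases hx : ν₀ x = 0
      · rw [hx, zero_mul]
      · rw [(hs0 x hx).2, if_neg hFa, mul_zero]
    have h2 := decide_le ν₀ ν₁ (fun x => F (numModels x)) (A.answer T) h0.1 h0.2
      (fun x hx => by rw [(hs1 x hx).2]; exact hFa1) _ _ hη hadv
    exact h2.trans (by linarith)

/-- Every randomized parallel machine with few processors fails on some formula. -/
theorem cnt_random (ε : ℝ) (hε : 0 < ε) (Kc : ℕ) : ∃ C : ℝ, 0 < C ∧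
    ∀ n T w M : ℕ, 2 ≤ n → 1 ≤ T → C * (T * Real.log n) ≤ w → w ≤ n → n * 2 ^ w ≤ M →
      ∀ F : ℕ → Prop, (∃ a ≤ 2 ^ (n - 1), ∃ b ≤ 2 ^ (n - 1), F a ∧ ¬ F b) →
      ∀ (P : ℕ) (R : RandMachine (Fin M × Fin n × Bool) P), (P : ℝ) ≤ 2 ^ ((1 - ε) * n) →
        R.Lists (2 ^ (Kc * n)) →
        ∃ x, AllOccur x ∧
          R.success T x (F (numModels x)) ≤ 1 / 2 + (2 : ℝ) ^ (-((w : ℝ) / C)) := by
  classical
  obtain ⟨C, hC, H⟩ := cnt_average ε hε Kc
  refine ⟨C, hC, ?_⟩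
  intro n T w M hn hT hw hwn hM F hF P R hP hR
  -- a jump of `F`
  have hjump : ∃ a < 2 ^ (n - 1), ¬ (F a ↔ F (a + 1)) := by
    by_contra hcon
    push Not at hcon
    have h1 : ∀ a ≤ 2 ^ (n - 1), (F 0 ↔ F a) := by
      intro a
      induction a with
      | zero => intro _; exact Iff.rfl
      | succ a ih =>
        intro ha
        exact (ih (by omega)).trans (hcon a (by omega))
    obtain ⟨a, ha, b, hb, hFa, hFb⟩ := hF
    exact hFb ((h1 b hb).1 ((h1 a ha).2 hFa))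
  obtain ⟨a, ha, hFa⟩ := hjump
  obtain ⟨ν₀, ν₁, h0, h1, hd0, hd1, hK⟩ := H n T w M a hn hT hw hwn hM ha
  refine R.exists_le T (fun x => (ν₀ x + ν₁ x) / 2) (fun x => ?_) ?_ (fun x => AllOccur x)
    (fun x => F (numModels x)) ?_ _ (fun ω => ?_)
  · have := h0.1 x
    have := h1.1 x
    positivity
  · rw [← Finset.sum_div, Finset.sum_add_distrib, h0.2, h1.2]
    norm_num
  · intro x hx
    by_cases h2 : ν₀ x = 0
    · by_cases h3 : ν₁ x = 0
      · exfalso
        apply hx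
        rw [h2, h3]
        norm_num
      · exact (hd1 x h3).1
    · exact (hd0 x h2).1
  · have h2 := (hK P (R.mach ω) hP (hR ω)).2 F hFa
    refine le_trans (le_of_eq ?_) h2
    exact Finset.sum_congr rfl fun x _ => by congr!

/-- Counting satisfying assignments with randomized parallel machines. -/
theorem cnt_q1 (δ : ℝ) (hδ : 0 < δ) (hδ2 : δ < 2) (Kc : ℕ) (T : ℕ → ℕ) (hT : ∀ n, 1 ≤ T n)
    (hTo : (fun n : ℕ => (T n : ℝ) * Real.log n) =o[atTop] (fun n : ℕ => (n : ℝ))) :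
    ∃ M : ℕ → ℕ, (∃ C : ℝ, ∀ n, 2 ≤ n → (M n : ℝ) ≤ (n : ℝ) ^ (C * T n)) ∧
      ∀ c e : ℕ, ∀ᶠ n : ℕ in atTop,
        ∀ F : ℕ → Prop, (∃ a ≤ 2 ^ (n - 1), ∃ b ≤ 2 ^ (n - 1), F a ∧ ¬ F b) →
        ∀ (P : ℕ) (R : RandMachine (Fin (M n) × Fin n × Bool) P),
        (P : ℝ) ≤ (2 - δ) ^ n * (c * (M n : ℝ) ^ e) → R.Lists (2 ^ (Kc * n)) →
        ∃ x, AllOccur x ∧ R.success (T n) x (F (numModels x)) < 2 / 3 := by
  obtain ⟨β, hβ⟩ : ∃ β : ℝ, β = Real.logb 2 (2 - δ) := ⟨_, rfl⟩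
  have hβ1 : β < 1 := by
    rw [hβ, Real.logb_lt_iff_lt_rpow (by norm_num) (by linarith), Real.rpow_one]
    linarith
  have hβ2 : (2 - δ) = 2 ^ β := by
    rw [hβ, Real.rpow_logb (by norm_num) (by norm_num) (by linarith)]
  obtain ⟨ε, hε⟩ : ∃ ε : ℝ, ε = (1 - β) / 2 := ⟨_, rfl⟩
  have hε0 : 0 < ε := by rw [hε]; linarith
  obtain ⟨C, hC, H⟩ := cnt_random ε hε0 Kc
  obtain ⟨w, hw⟩ : ∃ w : ℕ → ℕ, w = fun n => ⌈C * (T n * Real.log n)⌉₊ := ⟨_, rfl⟩
  have hwge : ∀ n, C * (T n * Real.log n) ≤ w n := by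
    intro n; rw [hw]; exact Nat.le_ceil _
  have hlogn : Tendsto (fun n : ℕ => Real.log (n : ℝ)) atTop atTop :=
    Real.tendsto_log_atTop.comp tendsto_natCast_atTop_atTop
  have hnt : Tendsto (fun n : ℕ => (n : ℝ)) atTop atTop := tendsto_natCast_atTop_atTop
  have hl2 : (1 : ℝ) / 2 ≤ Real.log 2 := by
    have := Real.log_two_gt_d9
    linarith
  have hl2' : Real.log 2 ≤ 1 := by
    have := Real.log_two_lt_d9
    linarith
  have hwle : ∀ n : ℕ, 2 ≤ n → (w n : ℝ) ≤ (C + 2) * (T n * Real.log n) := by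
    intro n hn
    have hnR : (2 : ℝ) ≤ n := by exact_mod_cast hn
    have hTR : (1 : ℝ) ≤ T n := by exact_mod_cast hT n
    have hlog : 1 / 2 ≤ Real.log n := hl2.trans (Real.log_le_log (by norm_num) hnR)
    have h1 : (w n : ℝ) ≤ C * (T n * Real.log n) + 1 := by
      rw [congrFun hw n]
      exact (Nat.ceil_lt_add_one (by positivity)).le
    have h2 : 1 * (1 / 2) ≤ (T n : ℝ) * Real.log n :=
      mul_le_mul hTR hlog (by norm_num) (by linarith)
    linarith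
  have hMle : ∀ n : ℕ, 2 ≤ n → ((n * 2 ^ w n : ℕ) : ℝ) ≤ (n : ℝ) ^ ((C + 3) * T n) := by
    intro n hn
    have hnR : (2 : ℝ) ≤ n := by exact_mod_cast hn
    have hn0 : (0 : ℝ) < n := by linarith
    have hTR : (1 : ℝ) ≤ T n := by exact_mod_cast hT n
    have hlog : 0 ≤ Real.log n := Real.log_nonneg (by linarith)
    have h1 := hwle n hn
    push_cast
    rw [← Real.rpow_natCast, Real.rpow_def_of_pos (by norm_num : (0 : ℝ) < 2),
      Real.rpow_def_of_pos hn0]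
    nth_rewrite 1 [← Real.exp_log hn0]
    rw [← Real.exp_add]
    apply Real.exp_le_exp.2
    calc Real.log n + Real.log 2 * (w n : ℝ) ≤ Real.log n + 1 * (w n : ℝ) := by gcongr
      _ ≤ Real.log n + 1 * ((C + 2) * (T n * Real.log n)) := by gcongr
      _ ≤ T n * Real.log n + 1 * ((C + 2) * (T n * Real.log n)) := by
          have : 1 * Real.log n ≤ T n * Real.log n := mul_le_mul_of_nonneg_right hTR hlog
          linarith
      _ = Real.log n * ((C + 3) * T n) := by ring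
  refine ⟨fun n => n * 2 ^ w n, ⟨C + 3, fun n hn => hMle n hn⟩, ?_⟩
  intro c e
  have hE : (fun n : ℕ => (c : ℝ) + 2 * e * ((C + 3) * (T n * Real.log n)))
      =o[atTop] (fun n : ℕ => (n : ℝ)) := by
    have hconst : (fun _ : ℕ => (c : ℝ)) =o[atTop] (fun n : ℕ => (n : ℝ)) :=
      Asymptotics.isLittleO_const_left.2 (Or.inr (tendsto_norm_atTop_atTop.comp hnt))
    have h1 : (fun n : ℕ => (c : ℝ) + 2 * e * ((C + 3) * (T n * Real.log n))) =
        fun n : ℕ => (c : ℝ) + (2 * e * (C + 3)) * (T n * Real.log n) := by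
      funext n; ring
    rw [h1]
    exact hconst.add (hTo.const_mul_left _)
  have hW : (fun n : ℕ => (C + 2) * (T n * Real.log n)) =o[atTop] (fun n : ℕ => (n : ℝ)) :=
    hTo.const_mul_left _
  filter_upwards [hE.bound hε0, hW.bound (zero_lt_one), hlogn.eventually
    (eventually_ge_atTop 3), eventually_ge_atTop 2] with n h1 h2 h4 h5
  have hnR : (2 : ℝ) ≤ n := by exact_mod_cast h5
  have hn0 : (0 : ℝ) < n := by linarith
  have hTR : (1 : ℝ) ≤ T n := by exact_mod_cast hT n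
  have hTL : 0 ≤ (T n : ℝ) * Real.log n := by positivity
  rw [Real.norm_of_nonneg (by positivity), Real.norm_of_nonneg (by linarith)] at h1 h2
  have hwn : w n ≤ n := by
    have : (w n : ℝ) ≤ n := (hwle n h5).trans (by linarith)
    exact_mod_cast this
  intro F hF P R hP hR
  have hPle : (P : ℝ) ≤ 2 ^ ((1 - ε) * n) := by
    refine hP.trans ?_
    have hMle' : ((n * 2 ^ w n : ℕ) : ℝ) ≤ 2 ^ (2 * ((C + 3) * (T n * Real.log n))) := by
      refine (hMle n h5).trans ?_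
      rw [Real.rpow_def_of_pos (by norm_num : (0 : ℝ) < 2), Real.rpow_def_of_pos hn0]
      apply Real.exp_le_exp.2
      have h6 : 0 ≤ (C + 3) * ((T n : ℝ) * Real.log n) := by positivity
      have h7 : (1 / 2) * (2 * ((C + 3) * ((T n : ℝ) * Real.log n))) ≤
          Real.log 2 * (2 * ((C + 3) * (T n * Real.log n))) :=
        mul_le_mul_of_nonneg_right hl2 (by positivity)
      calc Real.log n * ((C + 3) * T n) = (1 / 2) * (2 * ((C + 3) * (T n * Real.log n))) := by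
            ring
        _ ≤ _ := h7
    have hc : (c : ℝ) ≤ 2 ^ (c : ℝ) := by
      rw [Real.rpow_natCast]
      exact_mod_cast Nat.lt_two_pow_self.le
    have hpow : (0 : ℝ) ≤ (2 - δ) ^ n := pow_nonneg (by linarith) n
    calc (2 - δ) ^ n * (c * ((n * 2 ^ w n : ℕ) : ℝ) ^ e)
        ≤ (2 - δ) ^ n * (2 ^ (c : ℝ) *
          (2 ^ (2 * ((C + 3) * (T n * Real.log n)))) ^ e) := by gcongr
      _ = 2 ^ (β * n + ((c : ℝ) + 2 * e * ((C + 3) * (T n * Real.log n)))) := by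
          rw [hβ2, ← Real.rpow_natCast (2 ^ β) n, ← Real.rpow_natCast (2 ^ _ : ℝ) e,
            ← Real.rpow_mul (by norm_num), ← Real.rpow_mul (by norm_num),
            ← Real.rpow_add (by norm_num), ← Real.rpow_add (by norm_num)]
          congr 1
          ring
      _ ≤ 2 ^ (β * n + ε * n) := by
          apply Real.rpow_le_rpow_of_exponent_le (by norm_num)
          linarith
      _ = 2 ^ ((1 - ε) * n) := by
          congr 1
          have h9 : β = 1 - 2 * ε := by rw [hε]; ring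
          rw [h9]; ring
  obtain ⟨x, hx1, hx2⟩ := H n (T n) (w n) (n * 2 ^ w n) h5 (hT n) (hwge n) hwn le_rfl F hF P R
    hPle hR
  refine ⟨x, hx1, lt_of_le_of_lt hx2 ?_⟩
  have h6 : (2 : ℝ) ^ (-((w n : ℝ) / C)) ≤ 2 ^ (-(3 : ℝ)) := by
    apply Real.rpow_le_rpow_of_exponent_le (by norm_num)
    rw [neg_le_neg_iff, le_div_iff₀ hC]
    have h7 : 1 * 3 ≤ (T n : ℝ) * Real.log n := mul_le_mul hTR h4 (by norm_num) (by linarith)
    have h8 : C * 3 ≤ C * (T n * Real.log n) := mul_le_mul_of_nonneg_left (by linarith) hC.le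
    linarith [hwge n]
  have h7 : (2 : ℝ) ^ (-(3 : ℝ)) = 1 / 8 := by
    rw [Real.rpow_neg (by norm_num)]
    norm_num
  rw [h7] at h6
  linarith

end Pool.Agent.W964.Pram
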