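import Mathlib
import Pool.Agent.W964.Pram.Hard
import Pool.Agent.W964.Pram.RandMachine
import Pool.Agent.H592R7.Enc

/-!
The satisfiability of CNF formulas is hard on average for parallel machines.
-/

set_option linter.unusedSectionVars false

namespace Pool.Agent.W964.Pram

open Finset H568R2 H592R3 SmallDepth

open Classical in
theorem sat_pram (ε : ℝ) (hε : 0 < ε) (hε1 : ε ≤ 1 / 2) (Kc : ℕ) : ∃ C : ℝ, 0 < C ∧
    ∀ n T w M : ℕ, 2 ≤ n → 1 ≤ T → C * (T * Real.log n) ≤ w → w ≤ n → n * 2 ^ w ≤ M →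
    ∃ ν₀ ν₁ : ((Fin M × Fin n × Bool) → Bool) → ℝ,
      ((∀ x, 0 ≤ ν₀ x) ∧ ∑ x, ν₀ x = 1) ∧ ((∀ x, 0 ≤ ν₁ x) ∧ ∑ x, ν₁ x = 1) ∧
      (∀ x, ν₀ x ≠ 0 → WidthLe x w) ∧ (∀ x, ν₁ x ≠ 0 → WidthLe x w ∧ ∃ α, Models x α) ∧
      (∑ x, ν₀ x * (if ∃ α, Models x α then 1 else 0)) ≤ (2 : ℝ) ^ (-((1 - ε) * n / 2)) ∧
      ∀ (P : ℕ) (A : Machine (Fin M × Fin n × Bool) P), (P : ℝ) ≤ 2 ^ ((1 - ε) * n) →
        (∀ q, (A.query q).length ≤ 2 ^ (Kc * n)) →
        |(∑ x, ν₀ x * (if A.answer T x = true then 1 else 0)) -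
          ∑ x, ν₁ x * (if A.answer T x = true then 1 else 0)| ≤ (2 : ℝ) ^ (-((w : ℝ) / C)) := by
  obtain ⟨Q, hQ6, _, C', hC', hpar⟩ := pram_hard ε hε hε1 Kc
  obtain ⟨C, hC⟩ : ∃ C : ℝ, C = C' + 16 * (2 * Q ^ 2 + 14 + 1) := ⟨_, rfl⟩
  have hC0 : 0 < C := by rw [hC]; positivity
  refine ⟨C, hC0, ?_⟩
  intro n T w M hn hT hw hwn hM
  have hnR : (2 : ℝ) ≤ n := by exact_mod_cast hn
  have hlogn : 0 ≤ Real.log n := Real.log_nonneg (by linarith)
  obtain ⟨b, m', hb, hm', hB2, hBw, hQn, hexp, hwb, s, hs, hMach⟩ := hpar n T w hn hT (by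
    refine le_trans ?_ hw
    apply mul_le_mul_of_nonneg_right _ (by positivity)
    rw [hC]
    have : (0 : ℝ) ≤ 16 * (2 * Q ^ 2 + 14 + 1) := by positivity
    linarith) hwn
  obtain ⟨σ, hσ, hσw, hσs⟩ := H592R3.MbU.enc Q (3 * T) b m' n w M hQ6 (by omega) hb hm' hn hBw
    hQn hM s
  obtain ⟨p, hp⟩ : ∃ p : ℝ, p = dens T b := ⟨_, rfl⟩
  have hp0 : 0 ≤ p := by rw [hp]; unfold dens; positivity
  have hp1 : p ≤ 1 := by
    have h1 : (1 : ℝ) ≤ ((2 : ℝ) ^ (3 * T * b)) ^ 3 := one_le_pow₀ (one_le_pow₀ (by norm_num))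
    have h2 : 1 / ((2 : ℝ) ^ (3 * T * b)) ^ 3 ≤ 1 := by
      rw [div_le_one (by positivity)]; exact h1
    rw [hp]
    unfold dens
    linarith
  rw [← hp] at hMach
  have hμ : ∀ X : Vr Q T b m' → Bool,
      0 ≤ ∏ i, vp p (X i) := fun X => Finset.prod_nonneg fun i _ => vp_nonneg hp0 hp1 _
  have hμ1 : ∑ X : Vr Q T b m' → Bool, ∏ i, vp p (X i) = 1 := by
    have := Ex_const (I := Vr Q T b m') (vp_sum p) (1 : ℝ)
    unfold Ex at this
    simpa using this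
  have hNp : (0 : ℝ) < (((dom T b : ℕ) : ℝ)) ^ (Q * m') := by unfold dom; positivity
  refine ⟨push (fun X : Vr Q T b m' → Bool => ∏ i, vp p (X i)) σ,
    push (fun Xa : (Vr Q T b m' → Bool) × (Fin (Q * m') → Fin (dom T b)) =>
      (∏ i, vp p (Xa.1 i)) * (1 / (((dom T b : ℕ) : ℝ)) ^ (Q * m')))
      (fun Xa => σ (plant (vr s Xa.2) univ Xa.1)),
    ⟨push_nonneg _ _ hμ, by rw [push_total, hμ1]⟩,
    ⟨push_nonneg _ _ (fun Xa => mul_nonneg (hμ _) (by positivity)), ?_⟩, ?_, ?_, ?_, ?_⟩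
  · rw [push_total, Fintype.sum_prod_type]
    dsimp only
    simp_rw [Finset.sum_const, Finset.card_univ, Fintype.card_fun, Fintype.card_fin, nsmul_eq_mul]
    refine Eq.trans ?_ hμ1
    refine Finset.sum_congr rfl fun X _ => ?_
    rw [Nat.cast_pow]
    field_simp
  · intro u hu
    obtain ⟨X, rfl⟩ := push_ne _ _ _ hu
    exact hσw X
  · intro u hu
    obtain ⟨Xa, rfl⟩ := push_ne _ _ _ hu
    exact ⟨hσw _, (hσs _).2 (plant_sat s _ _)⟩
  · rw [push_sum _ σ (fun u => if ∃ α, Models u α then (1 : ℝ) else 0)]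
    have h1 := sat_prob (N := dom T b) s hp0 hp1
    have h2 := sat_arith Q (3 * T) b m' n ε hexp
    have h2' : (((dom T b : ℕ) : ℝ)) ^ (Q * m') * p ^ (Q * m') ≤
        2 ^ (-((1 - ε) * n / 2)) := by rw [hp]; exact h2
    refine le_trans (le_of_eq ?_) (h1.trans h2')
    unfold Ex
    refine Finset.sum_congr rfl fun X _ => ?_
    beta_reduce
    by_cases hX : Sat s X
    · rw [if_pos hX, if_pos ((hσs X).2 hX)]
    · rw [if_neg hX, if_neg (fun h => hX ((hσs X).1 h))]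
  · intro P A hP hKl
    rw [push_sum _ σ (fun u => if A.answer T u = true then (1 : ℝ) else 0),
      push_sum _ _ (fun u => if A.answer T u = true then (1 : ℝ) else 0)]
    refine (hMach (Fin M × Fin n × Bool) σ hσ P A hP hKl).trans ?_
    have hdt : 1 ≤ 3 * T * b := Nat.one_le_iff_ne_zero.2 (by positivity)
    have h4 : (4 : ℝ) ≤ 2 ^ ((3 * T * b : ℕ) / 2 : ℝ) := by
      have h5 : (2 : ℝ) ≤ (3 * T * b : ℕ) / 2 := by
        rw [le_div_iff₀ (by norm_num)]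
        have : 4 ≤ 3 * T * b := by omega
        have h6 : ((4 : ℕ) : ℝ) ≤ ((3 * T * b : ℕ) : ℝ) := by exact_mod_cast this
        push_cast at h6 ⊢
        linarith
      calc (4 : ℝ) = 2 ^ (2 : ℝ) := by norm_num
        _ ≤ 2 ^ ((3 * T * b : ℕ) / 2 : ℝ) := Real.rpow_le_rpow_of_exponent_le (by norm_num) h5
    have h5 : (2 : ℝ) ^ (3 * T * b) = 2 ^ ((3 * T * b : ℕ) / 2 : ℝ) * 2 ^ ((3 * T * b : ℕ) / 2 : ℝ) := by
      rw [← Real.rpow_add (by norm_num), add_halves, Real.rpow_natCast]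
    have h6 : (2 : ℝ) ^ (-((w : ℝ) / C)) = 1 / 2 ^ ((w : ℝ) / C) := by
      rw [Real.rpow_neg (by norm_num), one_div]
    have h7 : (2 : ℝ) ^ ((w : ℝ) / C) ≤ 2 ^ ((3 * T * b : ℕ) / 2 : ℝ) := by
      apply Real.rpow_le_rpow_of_exponent_le (by norm_num)
      rw [div_le_div_iff₀ hC0 (by norm_num)]
      have h8 : (w : ℝ) ≤ 8 * (2 * Q ^ 2 + 14 + 1) * (3 * T * b) := by
        have : ((w : ℕ) : ℝ) ≤ ((8 * ar Q * (3 * T * b) : ℕ) : ℝ) := by exact_mod_cast hwb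
        unfold ar at this
        push_cast at this
        exact this
      have h9 : 16 * (2 * (Q : ℝ) ^ 2 + 14 + 1) * (3 * T * b) ≤ C * (3 * T * b) := by
        apply mul_le_mul_of_nonneg_right _ (by positivity)
        rw [hC]; linarith only [hC']
      push_cast
      linarith only [h8, h9]
    rw [h6, h5, div_le_div_iff₀ (by positivity) (by positivity)]
    have h8 : (0 : ℝ) < 2 ^ ((3 * T * b : ℕ) / 2 : ℝ) := by positivity
    have h9 := mul_le_mul_of_nonneg_right h4 h8.le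
    linarith only [h9, h7, h8]

end Pool.Agent.W964.Pram
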