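import Mathlib
import Pool.Agent.W964.Pram.SatHard

/-!
The satisfiability of CNF formulas and parallel machines: average case and randomized machines.
-/

set_option linter.unusedSectionVars false

namespace Pool.Agent.W964.Pram

open Finset SmallDepth Filter

open Classical in
/-- The average-case statement, with the probability of a correct answer. -/
theorem sat_average (ε : ℝ) (hε : 0 < ε) (Kc : ℕ) : ∃ C : ℝ, 0 < C ∧
    ∀ n T w M : ℕ, 2 ≤ n → 1 ≤ T → C * (T * Real.log n) ≤ w → w ≤ n → n * 2 ^ w ≤ M →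
    ∃ ν₀ ν₁ : ((Fin M × Fin n × Bool) → Bool) → ℝ,
      ((∀ x, 0 ≤ ν₀ x) ∧ ∑ x, ν₀ x = 1) ∧ ((∀ x, 0 ≤ ν₁ x) ∧ ∑ x, ν₁ x = 1) ∧
      (∀ x, ν₀ x ≠ 0 → WidthLe x w) ∧ (∀ x, ν₁ x ≠ 0 → WidthLe x w ∧ ∃ α, Models x α) ∧
      (∑ x, ν₀ x * (if ∃ α, Models x α then 1 else 0)) ≤ (2 : ℝ) ^ (-((1 - ε) * n / 2)) ∧
      ∀ (P : ℕ) (A : Machine (Fin M × Fin n × Bool) P), (P : ℝ) ≤ 2 ^ ((1 - ε) * n) →
        A.Lists (2 ^ (Kc * n)) →
        |(∑ x, ν₀ x * (if A.answer T x = true then 1 else 0)) -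
          ∑ x, ν₁ x * (if A.answer T x = true then 1 else 0)| ≤ (2 : ℝ) ^ (-((w : ℝ) / C)) ∧
        ∑ x, (ν₀ x + ν₁ x) / 2 * (if (A.answer T x = true ↔ ∃ α, Models x α) then 1 else 0) ≤
          1 / 2 + (2 : ℝ) ^ (-((w : ℝ) / C)) := by
  obtain ⟨C, hC, H⟩ := sat_pram (min ε (1 / 2)) (lt_min hε (by norm_num))
    (min_le_right _ _) Kc
  have hC' : 0 < max C 4 := lt_max_of_lt_left hC
  refine ⟨max C 4, hC', ?_⟩
  intro n T w M hn hT hw hwn hM
  have hnR : (2 : ℝ) ≤ n := by exact_mod_cast hn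
  have hlog : 0 ≤ (T : ℝ) * Real.log n := by
    have := Real.log_nonneg (by linarith : (1 : ℝ) ≤ n)
    positivity
  have hm1 : min ε (1 / 2) ≤ ε := min_le_left _ _
  have hm2 : min ε (1 / 2) ≤ 1 / 2 := min_le_right _ _
  obtain ⟨ν₀, ν₁, h0, h1, hw0, hw1, hsat, hK⟩ := H n T w M hn hT
    (le_trans (mul_le_mul_of_nonneg_right (le_max_left _ _) hlog) hw) hwn hM
  have hexp : (2 : ℝ) ^ (-((w : ℝ) / C)) ≤ (2 : ℝ) ^ (-((w : ℝ) / max C 4)) := by
    apply Real.rpow_le_rpow_of_exponent_le (by norm_num)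
    rw [neg_le_neg_iff]
    exact div_le_div_of_nonneg_left (Nat.cast_nonneg w) hC (le_max_left _ _)
  have hexp2 : (2 : ℝ) ^ (-((1 - min ε (1 / 2)) * n / 2)) ≤ (2 : ℝ) ^ (-((w : ℝ) / max C 4)) := by
    apply Real.rpow_le_rpow_of_exponent_le (by norm_num)
    rw [neg_le_neg_iff]
    have h4 : (4 : ℝ) ≤ max C 4 := le_max_right _ _
    have hwR : (w : ℝ) ≤ n := by exact_mod_cast hwn
    calc (w : ℝ) / max C 4 ≤ (w : ℝ) / 4 := div_le_div_of_nonneg_left (Nat.cast_nonneg w)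
          (by norm_num) h4
      _ ≤ n / 4 := by linarith
      _ ≤ (1 - min ε (1 / 2)) * n / 2 := by nlinarith
  refine ⟨ν₀, ν₁, h0, h1, hw0, hw1, ?_, ?_⟩
  · refine hsat.trans ?_
    apply Real.rpow_le_rpow_of_exponent_le (by norm_num)
    nlinarith
  · intro P A hP hKl
    have hP' : (P : ℝ) ≤ 2 ^ ((1 - min ε (1 / 2)) * n) := by
      refine hP.trans ?_
      apply Real.rpow_le_rpow_of_exponent_le (by norm_num)
      nlinarith
    have hadv := hK P A hP' hKl
    refine ⟨hadv.trans hexp, ?_⟩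
    refine (decide_le ν₀ ν₁ (fun x => ∃ α, Models x α) (A.answer T) h0.1 h0.2
      (fun x hx => (hw1 x hx).2) _ _ hsat hadv).trans ?_
    linarith [hexp, hexp2]

/-- Every randomized parallel machine with few processors fails on some formula. -/
theorem sat_random (ε : ℝ) (hε : 0 < ε) (Kc : ℕ) : ∃ C : ℝ, 0 < C ∧
    ∀ n T w M : ℕ, 2 ≤ n → 1 ≤ T → C * (T * Real.log n) ≤ w → w ≤ n → n * 2 ^ w ≤ M →
      ∀ (P : ℕ) (R : RandMachine (Fin M × Fin n × Bool) P), (P : ℝ) ≤ 2 ^ ((1 - ε) * n) →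
        R.Lists (2 ^ (Kc * n)) →
        ∃ x, WidthLe x w ∧
          R.success T x (∃ α, Models x α) ≤ 1 / 2 + (2 : ℝ) ^ (-((w : ℝ) / C)) := by
  classical
  obtain ⟨C, hC, H⟩ := sat_average ε hε Kc
  refine ⟨C, hC, ?_⟩
  intro n T w M hn hT hw hwn hM P R hP hR
  obtain ⟨ν₀, ν₁, h0, h1, hd0, hd1, _, hK⟩ := H n T w M hn hT hw hwn hM
  refine R.exists_le T (fun x => (ν₀ x + ν₁ x) / 2) (fun x => ?_) ?_ (fun x => WidthLe x w)
    (fun x => ∃ α, Models x α) ?_ _ (fun ω => ?_)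
  · have := h0.1 x
    have := h1.1 x
    positivity
  · rw [← Finset.sum_div, Finset.sum_add_distrib, h0.2, h1.2]
    norm_num
  · intro x hx
    by_cases h2 : ν₀ x = 0
    · by_cases h3 : ν₁ x = 0
      · exfalso
        apply hx
        rw [h2, h3]
        norm_num
      · exact (hd1 x h3).1
    · exact hd0 x h2
  · have h2 := (hK P (R.mach ω) hP (hR ω)).2
    refine le_trans (le_of_eq ?_) h2
    exact Finset.sum_congr rfl fun x _ => by congr!

/-- The form of the strong exponential time hypothesis for randomized parallel machines. -/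
theorem sat_q1 (δ : ℝ) (hδ : 0 < δ) (hδ2 : δ < 2) (Kc : ℕ) (T : ℕ → ℕ) (hT : ∀ n, 1 ≤ T n)
    (hTo : (fun n : ℕ => (T n : ℝ) * Real.log n) =o[atTop] (fun n : ℕ => (n : ℝ))) :
    ∃ w M : ℕ → ℕ, (∃ C : ℝ, ∀ n, 2 ≤ n → (w n : ℝ) ≤ C * (T n * Real.log n) ∧
        (M n : ℝ) ≤ (n : ℝ) ^ (C * T n)) ∧
      ∀ c e : ℕ, ∀ᶠ n : ℕ in atTop, ∀ (P : ℕ) (R : RandMachine (Fin (M n) × Fin n × Bool) P),
        (P : ℝ) ≤ (2 - δ) ^ n * (c * (M n : ℝ) ^ e) → R.Lists (2 ^ (Kc * n)) →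
        ∃ x, WidthLe x (w n) ∧ R.success (T n) x (∃ α, Models x α) < 2 / 3 := by
  obtain ⟨β, hβ⟩ : ∃ β : ℝ, β = Real.logb 2 (2 - δ) := ⟨_, rfl⟩
  have hβ1 : β < 1 := by
    rw [hβ, Real.logb_lt_iff_lt_rpow (by norm_num) (by linarith), Real.rpow_one]
    linarith
  have hβ2 : (2 - δ) = 2 ^ β := by
    rw [hβ, Real.rpow_logb (by norm_num) (by norm_num) (by linarith)]
  obtain ⟨ε, hε⟩ : ∃ ε : ℝ, ε = (1 - β) / 2 := ⟨_, rfl⟩
  have hε0 : 0 < ε := by rw [hε]; linarith
  obtain ⟨C, hC, H⟩ := sat_random ε hε0 Kc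
  obtain ⟨w, hw⟩ : ∃ w : ℕ → ℕ, w = fun n => ⌈C * (T n * Real.log n)⌉₊ := ⟨_, rfl⟩
  have hwge : ∀ n, C * (T n * Real.log n) ≤ w n := by
    intro n; rw [hw]; exact Nat.le_ceil _
  have hlogn : Tendsto (fun n : ℕ => Real.log (n : ℝ)) atTop atTop :=
    Real.tendsto_log_atTop.comp tendsto_natCast_atTop_atTop
  have hnt : Tendsto (fun n : ℕ => (n : ℝ)) atTop atTop := tendsto_natCast_atTop_atTop
  -- bounds for `w n` and for the number of clauses
  have hl2 : (1 : ℝ) / 2 ≤ Real.log 2 := by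
    have := Real.log_two_gt_d9
    linarith
  have hl2' : Real.log 2 ≤ 1 := by
    have := Real.log_two_lt_d9
    linarith
  have hwle : ∀ n : ℕ, 2 ≤ n → (w n : ℝ) ≤ (C + 2) * (T n * Real.log n) := by
    intro n hn
    have hnR : (2 : ℝ) ≤ n := by exact_mod_cast hn
    have hTR : (1 : ℝ) ≤ T n := by exact_mod_cast hT n
    have hlog : 1 / 2 ≤ Real.log n := hl2.trans (Real.log_le_log (by norm_num) hnR)
    have h1 : (w n : ℝ) ≤ C * (T n * Real.log n) + 1 := by
      rw [congrFun hw n]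
      exact (Nat.ceil_lt_add_one (by positivity)).le
    have h2 : 1 * (1 / 2) ≤ (T n : ℝ) * Real.log n :=
      mul_le_mul hTR hlog (by norm_num) (by linarith)
    linarith
  have hMle : ∀ n : ℕ, 2 ≤ n → ((n * 2 ^ w n : ℕ) : ℝ) ≤ (n : ℝ) ^ ((C + 3) * T n) := by
    intro n hn
    have hnR : (2 : ℝ) ≤ n := by exact_mod_cast hn
    have hn0 : (0 : ℝ) < n := by linarith
    have hTR : (1 : ℝ) ≤ T n := by exact_mod_cast hT n
    have hlog : 0 ≤ Real.log n := Real.log_nonneg (by linarith)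
    have h1 := hwle n hn
    push_cast
    rw [← Real.rpow_natCast, Real.rpow_def_of_pos (by norm_num : (0 : ℝ) < 2),
      Real.rpow_def_of_pos hn0]
    nth_rewrite 1 [← Real.exp_log hn0]
    rw [← Real.exp_add]
    apply Real.exp_le_exp.2
    calc Real.log n + Real.log 2 * (w n : ℝ) ≤ Real.log n + 1 * (w n : ℝ) := by gcongr
      _ ≤ Real.log n + 1 * ((C + 2) * (T n * Real.log n)) := by gcongr
      _ ≤ T n * Real.log n + 1 * ((C + 2) * (T n * Real.log n)) := by
          have : 1 * Real.log n ≤ T n * Real.log n := mul_le_mul_of_nonneg_right hTR hlog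
          linarith
      _ = Real.log n * ((C + 3) * T n) := by ring
  refine ⟨w, fun n => n * 2 ^ w n, ⟨C + 3, fun n hn => ⟨?_, hMle n hn⟩⟩, ?_⟩
  · refine (hwle n hn).trans ?_
    have hnR : (2 : ℝ) ≤ n := by exact_mod_cast hn
    have hlog : 0 ≤ (T n : ℝ) * Real.log n := by
      have := Real.log_nonneg (by linarith : (1 : ℝ) ≤ n)
      positivity
    linarith
  · intro c e
    have hE : (fun n : ℕ => (c : ℝ) + 2 * e * ((C + 3) * (T n * Real.log n)))
        =o[atTop] (fun n : ℕ => (n : ℝ)) := by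
      have hconst : (fun _ : ℕ => (c : ℝ)) =o[atTop] (fun n : ℕ => (n : ℝ)) :=
        Asymptotics.isLittleO_const_left.2 (Or.inr (tendsto_norm_atTop_atTop.comp hnt))
      have h1 : (fun n : ℕ => (c : ℝ) + 2 * e * ((C + 3) * (T n * Real.log n))) =
          fun n : ℕ => (c : ℝ) + (2 * e * (C + 3)) * (T n * Real.log n) := by
        funext n; ring
      rw [h1]
      exact hconst.add (hTo.const_mul_left _)
    have hW : (fun n : ℕ => (C + 2) * (T n * Real.log n)) =o[atTop] (fun n : ℕ => (n : ℝ)) :=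
      hTo.const_mul_left _
    filter_upwards [hE.bound hε0, hW.bound (zero_lt_one), hlogn.eventually
      (eventually_ge_atTop 3), eventually_ge_atTop 2] with n h1 h2 h4 h5
    have hnR : (2 : ℝ) ≤ n := by exact_mod_cast h5
    have hn0 : (0 : ℝ) < n := by linarith
    have hTR : (1 : ℝ) ≤ T n := by exact_mod_cast hT n
    have hTL : 0 ≤ (T n : ℝ) * Real.log n := by positivity
    rw [Real.norm_of_nonneg (by positivity), Real.norm_of_nonneg (by linarith)] at h1 h2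
    have hwn : w n ≤ n := by
      have : (w n : ℝ) ≤ n := (hwle n h5).trans (by linarith)
      exact_mod_cast this
    intro P R hP hR
    have hPle : (P : ℝ) ≤ 2 ^ ((1 - ε) * n) := by
      refine hP.trans ?_
      have hMle' : ((n * 2 ^ w n : ℕ) : ℝ) ≤ 2 ^ (2 * ((C + 3) * (T n * Real.log n))) := by
        refine (hMle n h5).trans ?_
        rw [Real.rpow_def_of_pos (by norm_num : (0 : ℝ) < 2), Real.rpow_def_of_pos hn0]
        apply Real.exp_le_exp.2
        have h6 : 0 ≤ (C + 3) * ((T n : ℝ) * Real.log n) := by positivity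
        have h7 : (1 / 2) * (2 * ((C + 3) * ((T n : ℝ) * Real.log n))) ≤
            Real.log 2 * (2 * ((C + 3) * (T n * Real.log n))) :=
          mul_le_mul_of_nonneg_right hl2 (by positivity)
        calc Real.log n * ((C + 3) * T n) = (1 / 2) * (2 * ((C + 3) * (T n * Real.log n))) := by
              ring
          _ ≤ _ := h7
      have hc : (c : ℝ) ≤ 2 ^ (c : ℝ) := by
        rw [Real.rpow_natCast]
        exact_mod_cast Nat.lt_two_pow_self.le
      have hpow : (0 : ℝ) ≤ (2 - δ) ^ n := pow_nonneg (by linarith) n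
      calc (2 - δ) ^ n * (c * ((n * 2 ^ w n : ℕ) : ℝ) ^ e)
          ≤ (2 - δ) ^ n * (2 ^ (c : ℝ) *
            (2 ^ (2 * ((C + 3) * (T n * Real.log n)))) ^ e) := by gcongr
        _ = 2 ^ (β * n + ((c : ℝ) + 2 * e * ((C + 3) * (T n * Real.log n)))) := by
            rw [hβ2, ← Real.rpow_natCast (2 ^ β) n, ← Real.rpow_natCast (2 ^ _ : ℝ) e,
              ← Real.rpow_mul (by norm_num), ← Real.rpow_mul (by norm_num),
              ← Real.rpow_add (by norm_num), ← Real.rpow_add (by norm_num)]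
            congr 1
            ring
        _ ≤ 2 ^ (β * n + ε * n) := by
            apply Real.rpow_le_rpow_of_exponent_le (by norm_num)
            linarith
        _ = 2 ^ ((1 - ε) * n) := by
            congr 1
            have h9 : β = 1 - 2 * ε := by rw [hε]; ring
            rw [h9]; ring
    obtain ⟨x, hx1, hx2⟩ := H n (T n) (w n) (n * 2 ^ w n) h5 (hT n) (hwge n) hwn le_rfl P R
      hPle hR
    refine ⟨x, hx1, lt_of_le_of_lt hx2 ?_⟩
    have h6 : (2 : ℝ) ^ (-((w n : ℝ) / C)) ≤ 2 ^ (-(3 : ℝ)) := by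
      apply Real.rpow_le_rpow_of_exponent_le (by norm_num)
      rw [neg_le_neg_iff, le_div_iff₀ hC]
      have h7 : 1 * 3 ≤ (T n : ℝ) * Real.log n := mul_le_mul hTR h4 (by norm_num) (by linarith)
      have h8 : C * 3 ≤ C * (T n * Real.log n) := mul_le_mul_of_nonneg_left (by linarith) hC.le
      linarith [hwge n]
    have h7 : (2 : ℝ) ^ (-(3 : ℝ)) = 1 / 8 := by
      rw [Real.rpow_neg (by norm_num)]
      norm_num
    rw [h7] at h6
    linarith

end Pool.Agent.W964.Pram
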